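import Pool.Agent.N975.S21.Cmp

/-!
# The character sums of the odd symbol of level `21`
-/

set_option autoImplicit false

open Finset

namespace Pool.Agent.N975.S21

open Pool.Agent.N972.P17 (sg)
open Pool.Agent.N877.P21
open Pool.Agent.N969.P15 (un Ev chE)
open Pool.Agent.N975.S17 (Chr0 sum_unZ chr0O chr0E)
open Pool.Agent.N975.ChE

noncomputable section

variable {R : Type*} [CommRing R] [IsDomain R] [CharZero R] {s : ℚ → R} {n : ℕ} {χ : ℤ → ℤ}

theorem un_cop {u : ℕ} (hu : u ∈ un n) : Nat.Coprime u n := (Finset.mem_filter.1 hu).2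

/-- class of zero -/
theorem sum0 (H : Sy s) (hc : Nat.Coprime 21 n) (χ : ℤ → ℤ) :
    ∑ u ∈ un n, (χ u : R) * s ((u : ℚ) / n) =
      s (3 / 8) * ((∑ u ∈ un n, χ u * Fp u n : ℤ) : R) := by
  push_cast
  rw [Finset.mul_sum]
  apply Finset.sum_congr rfl
  intro u hu
  have h1 : IsCoprime (21 * (u : ℤ)) (n : ℤ) :=
    IsCoprime.mul_left (by exact_mod_cast hc.isCoprime) (by exact_mod_cast (un_cop hu).isCoprime)
  have h2 := cls0 H h1
  push_cast at h2
  rw [h2]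
  ring

/-- class of infinity -/
theorem sumI (H : Sy s) (hn : 0 < n) (h21 : 21 ∣ n) (χ : ℤ → ℤ) :
    2 * ∑ u ∈ un n, (χ u : R) * s ((u : ℚ) / n) =
      -(s (3 / 8) * ((∑ u ∈ un n, χ u * FA u n : ℤ) : R)) := by
  obtain ⟨c, rfl⟩ := h21
  push_cast
  rw [Finset.mul_sum, Finset.mul_sum, ← Finset.sum_neg_distrib]
  apply Finset.sum_congr rfl
  intro u hu
  have hc : (c : ℤ) ≠ 0 := by
    intro h
    have : c = 0 := by exact_mod_cast h
    rw [this] at hn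
    exact absurd hn (by norm_num)
  have h1 : IsCoprime (u : ℤ) (21 * (c : ℤ)) := by
    have := (un_cop hu).isCoprime
    push_cast at this
    exact this
  have h2 := clsI H hc h1
  push_cast at h2
  linear_combination (χ u : R) * h2

/-- class of one seventh -/
theorem sum7 (H : Sy s) (hn : 0 < n) (h7 : 7 ∣ n) (h3 : ¬ 3 ∣ n) (χ : ℤ → ℤ) :
    2 * ∑ u ∈ un n, (χ u : R) * s ((u : ℚ) / n) =
      -(s (3 / 8) * ((∑ u ∈ un n, χ u * FA u n : ℤ) : R)) := by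
  obtain ⟨c, rfl⟩ := h7
  push_cast
  rw [Finset.mul_sum, Finset.mul_sum, ← Finset.sum_neg_distrib]
  apply Finset.sum_congr rfl
  intro u hu
  have hc : (c : ℤ) ≠ 0 := by
    intro h
    have : c = 0 := by exact_mod_cast h
    rw [this] at hn
    exact absurd hn (by norm_num)
  have h1 : IsCoprime (3 * (u : ℤ)) (7 * (c : ℤ)) := by
    refine IsCoprime.mul_left ?_ ?_
    · have := ((Nat.Prime.coprime_iff_not_dvd Nat.prime_three).2 h3).isCoprime
      push_cast at this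
      exact this
    · have := (un_cop hu).isCoprime
      push_cast at this
      exact this
  obtain ⟨j, t, hjt⟩ := h1
  have h2 := cls7 H (x := u) (m := c) (j := j) (t := -t) hc (by linear_combination hjt)
  push_cast at h2
  linear_combination (χ u : R) * h2

/-- inversion in a character sum -/
theorem sum_inv [NeZero n] (X : Chr0 n χ) (w : (ZMod n)ˣ)
    (hw : χ (((w : ZMod n).val : ℕ) : ℤ) = 1) (g : ℕ → ℤ) :
    ∑ u : (ZMod n)ˣ, χ (((u : ZMod n).val : ℕ) : ℤ) * g (((w * u)⁻¹ : (ZMod n)ˣ) : ZMod n).val =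
      ∑ v : (ZMod n)ˣ, χ (((v : ZMod n).val : ℕ) : ℤ) * g ((v : ZMod n).val) := by
  refine Finset.sum_bij' (fun u _ => (w * u)⁻¹) (fun v _ => w⁻¹ * v⁻¹) (fun _ _ => mem_univ _)
    (fun _ _ => mem_univ _) ?_ ?_ ?_
  · intro u _
    simp
  · intro v _
    simp
  · intro u _
    congr 1
    -- the character at the inverse
    set v : (ZMod n)ˣ := (w * u)⁻¹ with hv
    have h1 : χ ((((w : ZMod n).val : ℕ) : ℤ) * ((((u : ZMod n).val : ℕ) : ℤ) *
        (((v : ZMod n).val : ℕ) : ℤ))) = χ 1 := by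
      refine X.per _ _ ?_
      rw [← ZMod.intCast_zmod_eq_zero_iff_dvd]
      push_cast
      rw [ZMod.natCast_zmod_val, ZMod.natCast_zmod_val, ZMod.natCast_zmod_val]
      have h7 : ((w * u : (ZMod n)ˣ) : ZMod n) * (v : ZMod n) = 1 := by
        rw [hv]; exact Units.mul_inv _
      rw [Units.val_mul] at h7
      linear_combination h7
    rw [X.mul, X.mul, hw, X.one] at h1
    have h2 := X.pm _ (ZMod.val_coe_unit_coprime u)
    have h3 := X.pm _ (ZMod.val_coe_unit_coprime v)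
    rcases h2 with h2 | h2 <;> rcases h3 with h3 | h3 <;> rw [h2, h3] at h1 ⊢ <;> omega

/-- class of one third -/
theorem sum3 (H : Sy s) (hn : 0 < n) (h3 : 3 ∣ n) (h7 : ¬ 7 ∣ n) (X : Chr0 n χ) (h : χ 7 = 1) :
    2 * ∑ u ∈ un n, (χ u : R) * s ((u : ℚ) / n) =
      -(s (3 / 8) * ((∑ u ∈ un n, χ u * FA u n : ℤ) : R)) := by
  have : NeZero n := ⟨hn.ne'⟩
  have hc : Nat.Coprime 7 n := (Nat.Prime.coprime_iff_not_dvd (by norm_num)).2 h7
  set w : (ZMod n)ˣ := ZMod.unitOfCoprime 7 hc with hw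
  have hwv : (w : ZMod n) = 7 := by
    rw [hw, ZMod.coe_unitOfCoprime]; push_cast; rfl
  obtain ⟨m, hm⟩ := h3
  have hm0 : (0 : ℤ) < m := by
    have : 0 < m := by omega
    exact_mod_cast this
  -- the values of the symbol
  have hval : ∀ u : (ZMod n)ˣ, 4 * s ((((u : ZMod n).val : ℕ) : ℚ) / n) =
      -(s (3 / 8) * ((2 * FA (((u : ZMod n).val : ℕ) : ℤ) n +
        sg (((((1 * u)⁻¹ : (ZMod n)ˣ) : ZMod n).val : ℕ) : ℤ) n -
        sg (((((w * u)⁻¹ : (ZMod n)ˣ) : ZMod n).val : ℕ) : ℤ) n : ℤ) : R)) := by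
    intro u
    set j : ℕ := (((w * u)⁻¹ : (ZMod n)ˣ) : ZMod n).val with hj
    have hdv : (n : ℤ) ∣ 7 * ((((u : ZMod n).val : ℕ) : ℤ) * (j : ℤ)) - 1 := by
      rw [← ZMod.intCast_zmod_eq_zero_iff_dvd]
      push_cast
      rw [hj, ZMod.natCast_zmod_val, ZMod.natCast_zmod_val]
      have h7 : ((w * u : (ZMod n)ˣ) : ZMod n) * (((w * u)⁻¹ : (ZMod n)ˣ) : ZMod n) = 1 :=
        Units.mul_inv _
      rw [Units.val_mul, hwv] at h7
      linear_combination h7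
    obtain ⟨t, ht⟩ := hdv
    have hnm : (n : ℤ) = 3 * (m : ℤ) := by
      rw [hm]; push_cast; rfl
    have h1 := cls3 H (x := (((u : ZMod n).val : ℕ) : ℤ)) (m := m) (j := j) (t := t) hm0
      (by rw [← hnm]; linear_combination ht)
    rw [← hnm] at h1
    have h2 : sg (7 * (j : ℤ)) n = sg (((((1 * u)⁻¹ : (ZMod n)ˣ) : ZMod n).val : ℕ) : ℤ) n := by
      apply sg_mod
      rw [← ZMod.intCast_zmod_eq_zero_iff_dvd]
      push_cast
      rw [hj, ZMod.natCast_zmod_val, ZMod.natCast_zmod_val, one_mul, mul_inv, Units.val_mul, ← hwv]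
      have h8 : ((w : (ZMod n)ˣ) : ZMod n) * ((w⁻¹ : (ZMod n)ˣ) : ZMod n) = 1 := Units.mul_inv _
      linear_combination (((u⁻¹ : (ZMod n)ˣ) : ZMod n)) * h8
    rw [h2] at h1
    push_cast at h1 ⊢
    exact h1
  have hw1 : χ ((((1 : (ZMod n)ˣ) : ZMod n).val : ℕ) : ℤ) = 1 := by
    rw [← X.one]
    refine X.per _ _ ?_
    rw [← ZMod.intCast_zmod_eq_zero_iff_dvd]
    push_cast
    rw [ZMod.natCast_zmod_val]
    simp
  have hw7 : χ (((w : ZMod n).val : ℕ) : ℤ) = 1 := by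
    rw [← h]
    refine X.per _ _ ?_
    rw [← ZMod.intCast_zmod_eq_zero_iff_dvd]
    push_cast
    rw [ZMod.natCast_zmod_val, hwv, sub_self]
  have e1 := sum_inv X 1 hw1 (fun j => sg j n)
  have e2 := sum_inv X w hw7 (fun j => sg j n)
  have key : 4 * ∑ u ∈ un n, (χ u : R) * s ((u : ℚ) / n) =
      -(s (3 / 8) * ((2 * ∑ u ∈ un n, χ u * FA u n : ℤ) : R)) := by
    rw [sum_unZ, sum_unZ, Finset.mul_sum]
    have e3 : ∀ u : (ZMod n)ˣ, 4 * ((χ (((u : ZMod n).val : ℕ) : ℤ) : R) *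
        s ((((u : ZMod n).val : ℕ) : ℚ) / n)) = -(s (3 / 8) *
          ((2 * (χ (((u : ZMod n).val : ℕ) : ℤ) * FA (((u : ZMod n).val : ℕ) : ℤ) n) +
          χ (((u : ZMod n).val : ℕ) : ℤ) *
            sg (((((1 * u)⁻¹ : (ZMod n)ˣ) : ZMod n).val : ℕ) : ℤ) n -
          χ (((u : ZMod n).val : ℕ) : ℤ) *
            sg (((((w * u)⁻¹ : (ZMod n)ˣ) : ZMod n).val : ℕ) : ℤ) n : ℤ) : R)) := by
      intro u
      have h1 := hval u
      push_cast at h1 ⊢
      linear_combination (χ (((u : ZMod n).val : ℕ) : ℤ) : R) * h1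
    rw [Finset.sum_congr rfl fun u _ => e3 u, Finset.sum_neg_distrib, ← Finset.mul_sum,
      ← Int.cast_sum, Finset.sum_sub_distrib, Finset.sum_add_distrib, e1, e2, ← Finset.mul_sum]
    congr 3
    ring
  push_cast at key ⊢
  have h5 : (2 : R) * (2 * ∑ u ∈ un n, (χ u : R) * s ((u : ℚ) / n) +
      s (3 / 8) * ∑ u ∈ un n, (χ u : R) * (FA u n : R)) = 0 := by
    linear_combination key
  have h6 := (mul_eq_zero.1 h5).resolve_left two_ne_zero
  linear_combination h6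

/-! ### the character at seven -/

theorem sp7_jac {n : ℕ} (h : Sp7 n) : jacobiSym n 7 = -1 := by
  have h1 : jacobiSym n 7 = jacobiSym ((n % 7 : ℕ) : ℤ) 7 := by
    rw [jacobiSym.mod_left]
    push_cast
    rfl
  rw [h1]
  rcases h with h | h | h <;> rw [h] <;> norm_num

theorem chi7O {n : ℕ} (h4 : n % 4 = 3) (h : Sp7 n) : jacobiSym 7 n = 1 := by
  have h1 := jacobiSym.quadratic_reciprocity_three_mod_four (a := 7) (b := n) (by norm_num) h4
  push_cast at h1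
  rw [h1, sp7_jac h]
  norm_num

theorem chi7E {n : ℕ} (hE : Ev n) (h : Sp7 n) : chE n 7 = 1 := by
  have h1 := chE_prime hE (p := 7) (by norm_num) (by norm_num)
  obtain ⟨m, rfl, -, -⟩ := hE
  push_cast at h1
  rw [h1]
  have e : (4 * (m : ℤ)) / 4 = m := by omega
  rw [e]
  have h2 := sp7_jac h
  push_cast at h2
  have e4 : jacobiSym 4 7 = 1 := by
    have h : (4 : ℤ) = 2 ^ 2 := by norm_num
    rw [h]
    exact jacobiSym.sq_one' (by decide)
  have e3 : jacobiSym (-1) 7 = -1 := by norm_num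
  have e2 : -(m : ℤ) = -1 * m := by ring
  rw [jacobiSym.mul_left, e4, one_mul] at h2
  rw [e2, jacobiSym.mul_left, e3, h2]
  norm_num

/-! ### the sums in terms of the Gross sums (`σ = s (1 / 3)`) -/

theorem cop21 {n : ℕ} (h3 : n % 3 = 1) (h7 : Sp7 n) : Nat.Coprime 21 n := by
  have e : 21 = 3 * 7 := by norm_num
  rw [e]
  refine Nat.Coprime.mul_left ?_ ?_
  · rw [Nat.Prime.coprime_iff_not_dvd Nat.prime_three]
    omega
  · rw [Nat.Prime.coprime_iff_not_dvd (by norm_num)]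
    unfold Sp7 at h7
    omega

theorem eq0 (hD : S_DIAG) (H : Sy s) {n : ℕ} (hn : Cls0 n) :
    36 * ∑ u ∈ un n, (jacobiSym u n : R) * s ((u : ℚ) / n) = s (1 / 3) * (cc n : R) ^ 2 := by
  have h1 := sum0 H (cop21 hn.2.2.1 hn.2.2.2) (fun u => jacobiSym u n)
  have h2 : ((72 * ∑ u ∈ un n, jacobiSym u n * Fp u n : ℤ) : R) = ((cc n ^ 2 : ℤ) : R) := by
    rw [hD n hn]
  rw [lam_eq H] at h1
  push_cast at h1 h2
  rw [h1]
  linear_combination s (1 / 3) * h2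

theorem eq0E (hD : S_DIAGE) (H : Sy s) {n : ℕ} (hn : Cls0e n) :
    36 * ∑ u ∈ un n, (chE n u : R) * s ((u : ℚ) / n) = s (1 / 3) * (cc n : R) ^ 2 := by
  have h1 := sum0 H (cop21 hn.2.1 hn.2.2) (chE n)
  have h2 : ((72 * ∑ u ∈ un n, chE n u * Fp u n : ℤ) : R) = ((cc n ^ 2 : ℤ) : R) := by
    rw [hD n hn]
  rw [lam_eq H] at h1
  push_cast at h1 h2
  rw [h1]
  linear_combination s (1 / 3) * h2

theorem eq7 (hD : S_DIAG7) (H : Sy s) {n : ℕ} (hn : Cl7 n) :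
    72 * ∑ u ∈ un n, (jacobiSym u n : R) * s ((u : ℚ) / n) = s (1 / 3) * (cc n : R) ^ 2 := by
  have h1 := sum7 H (Nat.pos_of_ne_zero hn.1.ne_zero) hn.2.2.1 (by have := hn.2.2.2; omega)
    (fun u => jacobiSym u n)
  have h2 : ((72 * ∑ u ∈ un n, jacobiSym u n * FA u n : ℤ) : R) = ((-cc n ^ 2 : ℤ) : R) := by
    rw [hD n hn]
  rw [lam_eq H] at h1
  push_cast at h1 h2
  linear_combination 36 * h1 - s (1 / 3) * h2

theorem eq7E (hD : S_DIAG7E) (H : Sy s) {n : ℕ} (hn : Cl7e n) :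
    72 * ∑ u ∈ un n, (chE n u : R) * s ((u : ℚ) / n) = s (1 / 3) * (cc n : R) ^ 2 := by
  have h1 := sum7 H (ev_pos hn.1) hn.2.1 (by have := hn.2.2; omega) (chE n)
  have h2 : ((72 * ∑ u ∈ un n, chE n u * FA u n : ℤ) : R) = ((-cc n ^ 2 : ℤ) : R) := by
    rw [hD n hn]
  rw [lam_eq H] at h1
  push_cast at h1 h2
  linear_combination 36 * h1 - s (1 / 3) * h2

theorem eq21 (hD : S_DIAG21) (H : Sy s) {n : ℕ} (hn : Cl21 n) :
    36 * ∑ u ∈ un n, (jacobiSym u n : R) * s ((u : ℚ) / n) = s (1 / 3) * (cc n : R) ^ 2 := by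
  have h1 := sumI H (Nat.pos_of_ne_zero hn.1.ne_zero)
    (by have := hn.2.2.1; have := hn.2.2.2; omega) (fun u => jacobiSym u n)
  have h2 : ((36 * ∑ u ∈ un n, jacobiSym u n * FA u n : ℤ) : R) = ((-cc n ^ 2 : ℤ) : R) := by
    rw [hD n hn]
  rw [lam_eq H] at h1
  push_cast at h1 h2
  linear_combination 18 * h1 - s (1 / 3) * h2

theorem eq21E (hD : S_DIAG21E) (H : Sy s) {n : ℕ} (hn : Cl21e n) :
    36 * ∑ u ∈ un n, (chE n u : R) * s ((u : ℚ) / n) = s (1 / 3) * (cc n : R) ^ 2 := by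
  have h1 := sumI H (ev_pos hn.1) (by have := hn.2.1; have := hn.2.2; omega) (chE n)
  have h2 : ((36 * ∑ u ∈ un n, chE n u * FA u n : ℤ) : R) = ((-cc n ^ 2 : ℤ) : R) := by
    rw [hD n hn]
  rw [lam_eq H] at h1
  push_cast at h1 h2
  linear_combination 18 * h1 - s (1 / 3) * h2

theorem eq3 (hD : S_DIAG3) (H : Sy s) {n : ℕ} (hn : Cl3 n) :
    18 * ∑ u ∈ un n, (jacobiSym u n : R) * s ((u : ℚ) / n) = s (1 / 3) * (cc n : R) ^ 2 := by
  have h1 := sum3 H (Nat.pos_of_ne_zero hn.1.ne_zero) hn.2.2.2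
    (by have := hn.2.2.1; unfold Sp7 at this; omega) (chr0O hn.2.1) (chi7O hn.2.1 hn.2.2.1)
  have h2 : ((36 * ∑ u ∈ un n, jacobiSym u n * FA u n : ℤ) : R) = ((-(2 * cc n ^ 2) : ℤ) : R) := by
    rw [hD n hn]
  rw [lam_eq H] at h1
  push_cast at h1 h2
  have h3 : (2 : R) * (18 * ∑ u ∈ un n, (jacobiSym u n : R) * s ((u : ℚ) / n) -
      s (1 / 3) * (cc n : R) ^ 2) = 0 := by
    linear_combination 18 * h1 - s (1 / 3) * h2
  exact sub_eq_zero.1 ((mul_eq_zero.1 h3).resolve_left two_ne_zero)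

theorem eq3E (hD : S_DIAG3E) (H : Sy s) {n : ℕ} (hn : Cl3e n) :
    18 * ∑ u ∈ un n, (chE n u : R) * s ((u : ℚ) / n) = s (1 / 3) * (cc n : R) ^ 2 := by
  have h1 := sum3 H (ev_pos hn.1) hn.2.2
    (by have := hn.2.1; unfold Sp7 at this; omega) (chr0E hn.1) (chi7E hn.1 hn.2.1)
  have h2 : ((36 * ∑ u ∈ un n, chE n u * FA u n : ℤ) : R) = ((-(2 * cc n ^ 2) : ℤ) : R) := by
    rw [hD n hn]
  rw [lam_eq H] at h1
  push_cast at h1 h2
  have h3 : (2 : R) * (18 * ∑ u ∈ un n, (chE n u : R) * s ((u : ℚ) / n) -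
      s (1 / 3) * (cc n : R) ^ 2) = 0 := by
    linear_combination 18 * h1 - s (1 / 3) * h2
  exact sub_eq_zero.1 ((mul_eq_zero.1 h3).resolve_left two_ne_zero)

end

end Pool.Agent.N975.S21
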