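import Pool.Agent.N975.S21.Sum
import Pool.Agent.N402.MF21.Asm
import Pool.Agent.N637.P21.Short
import Pool.Agent.Y687.K2.RankForm
import Pool.Agent.N969.P15.Glue

/-!
# The twists of level `21`: nonvanishing of the central values and the rank form of the conjecture
-/

set_option autoImplicit false

open Finset
open scoped MatrixGroups

namespace Pool.Agent.N975.S21

open Pool.Agent.N877.P21
open Pool.Agent.N969.P15 (un Ev chE Qc Qe)
open Pool.Agent.N974.Gen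
open Pool.Agent.N637.P21 (Ao Ae ao_cases ae_cases crit_ao_S crit_ae_S WS)
open Pool.Agent.N875.X15 (Fin2)
open Pool.Agent.Y687 (RankBSD rankBSD)
open Pool.Agent.W97.MT (ap)
open CongruenceSubgroup

noncomputable section

variable {a : ℕ → ℤ} {s : ℚ → ℤ}

theorem sy_of (g : Symb21 s a) : Sy s := ⟨g.per, g.neg, g.aff, g.aff_inf⟩

/-- the symbol is an odd multiple of the counting functions -/
theorem sigma_odd (g : Symb21 s a) : Odd (s (1 / 3)) :=
  g.odd3 (1 / 3) (by norm_num) (by norm_num)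

theorem sigma_ne (g : Symb21 s a) : s (1 / 3) ≠ 0 := by
  intro h
  have h1 := sigma_odd g
  rw [h] at h1
  exact absurd h1 (by decide)

/-! ### the sums, integral symbol -/

section sums

variable (g : Symb21 s a)
include g

theorem int0 (hD : S_DIAG) {n : ℕ} (hn : Cls0 n) :
    36 * ∑ u ∈ un n, jacobiSym u n * s ((u : ℚ) / n) = s (1 / 3) * cc n ^ 2 := by
  simpa using eq0 hD (sy_of g) hn

theorem int0E (hD : S_DIAGE) {n : ℕ} (hn : Cls0e n) :
    36 * ∑ u ∈ un n, chE n u * s ((u : ℚ) / n) = s (1 / 3) * cc n ^ 2 := by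
  simpa using eq0E hD (sy_of g) hn

theorem int7 (hD : S_DIAG7) {n : ℕ} (hn : Cl7 n) :
    72 * ∑ u ∈ un n, jacobiSym u n * s ((u : ℚ) / n) = s (1 / 3) * cc n ^ 2 := by
  simpa using eq7 hD (sy_of g) hn

theorem int7E (hD : S_DIAG7E) {n : ℕ} (hn : Cl7e n) :
    72 * ∑ u ∈ un n, chE n u * s ((u : ℚ) / n) = s (1 / 3) * cc n ^ 2 := by
  simpa using eq7E hD (sy_of g) hn

theorem int21 (hD : S_DIAG21) {n : ℕ} (hn : Cl21 n) :
    36 * ∑ u ∈ un n, jacobiSym u n * s ((u : ℚ) / n) = s (1 / 3) * cc n ^ 2 := by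
  simpa using eq21 hD (sy_of g) hn

theorem int21E (hD : S_DIAG21E) {n : ℕ} (hn : Cl21e n) :
    36 * ∑ u ∈ un n, chE n u * s ((u : ℚ) / n) = s (1 / 3) * cc n ^ 2 := by
  simpa using eq21E hD (sy_of g) hn

theorem int3 (hD : S_DIAG3) {n : ℕ} (hn : Cl3 n) :
    18 * ∑ u ∈ un n, jacobiSym u n * s ((u : ℚ) / n) = s (1 / 3) * cc n ^ 2 := by
  simpa using eq3 hD (sy_of g) hn

theorem int3E (hD : S_DIAG3E) {n : ℕ} (hn : Cl3e n) :
    18 * ∑ u ∈ un n, chE n u * s ((u : ℚ) / n) = s (1 / 3) * cc n ^ 2 := by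
  simpa using eq3E hD (sy_of g) hn

/-- **nonvanishing, odd discriminants** -/
theorem neO (hD : S_DIAG) (hD7 : S_DIAG7) (hD21 : S_DIAG21) (hD3 : S_DIAG3) {n : ℕ} (hn : Ao n)
    (hc : cc n ≠ 0) : ∑ u ∈ un n, jacobiSym u n * s ((u : ℚ) / n) ≠ 0 := by
  intro h0
  have h2 : s (1 / 3) * cc n ^ 2 ≠ 0 := mul_ne_zero (sigma_ne g) (pow_ne_zero 2 hc)
  rcases ao_cases hn with h | h | h | h
  · have h1 := int0 g hD h
    rw [h0, mul_zero] at h1
    exact h2 h1.symm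
  · have h1 := int7 g hD7 h
    rw [h0, mul_zero] at h1
    exact h2 h1.symm
  · have h1 := int21 g hD21 h
    rw [h0, mul_zero] at h1
    exact h2 h1.symm
  · have h1 := int3 g hD3 h
    rw [h0, mul_zero] at h1
    exact h2 h1.symm

/-- **nonvanishing, even discriminants** -/
theorem neE (hD : S_DIAGE) (hD7 : S_DIAG7E) (hD21 : S_DIAG21E) (hD3 : S_DIAG3E) {n : ℕ}
    (hn : Ae n) (hc : cc n ≠ 0) : ∑ u ∈ un n, chE n u * s ((u : ℚ) / n) ≠ 0 := by
  intro h0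
  have h2 : s (1 / 3) * cc n ^ 2 ≠ 0 := mul_ne_zero (sigma_ne g) (pow_ne_zero 2 hc)
  rcases ae_cases hn with h | h | h | h
  · have h1 := int0E g hD h
    rw [h0, mul_zero] at h1
    exact h2 h1.symm
  · have h1 := int7E g hD7 h
    rw [h0, mul_zero] at h1
    exact h2 h1.symm
  · have h1 := int21E g hD21 h
    rw [h0, mul_zero] at h1
    exact h2 h1.symm
  · have h1 := int3E g hD3 h
    rw [h0, mul_zero] at h1
    exact h2 h1.symm

end sums

/-! ### the Gross sum -/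

theorem cc_neO (hP : S_PAR) (hP3 : S_PARA3) {n : ℕ} (hn : Ao n) (hQ : Qc n) : cc n ≠ 0 := by
  have key : ∀ k : ℕ, (∃ y : ℤ, cc n = 2 ^ k * y ∧ (Odd y ↔ Qc n)) → cc n ≠ 0 := by
    rintro k ⟨y, hy, hodd⟩ h0
    rw [h0] at hy
    have h5 : y = 0 := by
      rcases mul_eq_zero.1 hy.symm with h6 | h6
      · exact absurd h6 (by positivity)
      · exact h6
    have h7 := hodd.2 hQ
    rw [h5] at h7
    exact absurd h7 (by decide)
  rcases ao_cases hn with h | h | h | h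
  · exact key _ (hP n (Or.inl h))
  · exact key _ (hP n (Or.inr h))
  · exact key _ (hP3 n (Or.inl h))
  · exact key _ (hP3 n (Or.inr h))

theorem cc_neE (hP : S_PARE) (hP3 : S_PARA3E) {n : ℕ} (hn : Ae n) (hQ : Qe n) : cc n ≠ 0 := by
  have key : ∀ k : ℕ, (∃ y : ℤ, cc n = 2 ^ k * y ∧ (Odd y ↔ Qe n)) → cc n ≠ 0 := by
    rintro k ⟨y, hy, hodd⟩ h0
    rw [h0] at hy
    have h5 : y = 0 := by
      rcases mul_eq_zero.1 hy.symm with h6 | h6
      · exact absurd h6 (by positivity)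
      · exact h6
    have h7 := hodd.2 hQ
    rw [h5] at h7
    exact absurd h7 (by decide)
  rcases ae_cases hn with h | h | h | h
  · exact key _ (hP n (Or.inl h))
  · exact key _ (hP n (Or.inr h))
  · exact key _ (hP3 n (Or.inl h))
  · exact key _ (hP3 n (Or.inr h))

/-! ### the rank form of the conjecture -/

/-- the points of the twist by `D` are finitely many -/
def FinPts (D : ℤ) : Prop :=
  {q : ℚ × ℚ | q.2 ^ 2 = q.1 ^ 3 + ((-5211 * D ^ 2 : ℤ) : ℚ) * q.1 +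
    ((-31050 * D ^ 3 : ℤ) : ℚ)}.Finite

theorem finPts_of {m : ℤ} (hm : m ≠ 0) (h : Fin2 (WS m)) : FinPts m := by
  have h1 := h.1
  refine Pool.Agent.N969.P15.set_of_pt (a := -5211 * m ^ 2) (b := -31050 * m ^ 3) ?_ h1
  have e : 4 * (-5211 * m ^ 2) ^ 3 + 27 * (-31050 * m ^ 3) ^ 2 = -539978068224 * m ^ 6 := by ring
  rw [e]
  exact mul_ne_zero (by norm_num) (pow_ne_zero 6 hm)

/-- **odd discriminants** -/
theorem bsdO (hD : S_DIAG) (hD7 : S_DIAG7) (hD21 : S_DIAG21) (hD3 : S_DIAG3) (hP : S_PAR)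
    (hP3 : S_PARA3) {n : ℕ} (hn : Ao n) (hQ : Qc n) :
    RankBSD (-5211 * (-(n : ℤ)) ^ 2) (-31050 * (-(n : ℤ)) ^ 3) := by
  have hn0 : n ≠ 0 := hn.1.ne_zero
  have hab : (-(n : ℤ)).natAbs = n := by rw [Int.natAbs_neg, Int.natAbs_natCast]
  have hfin : FinPts (-(n : ℤ)) :=
    finPts_of (by omega) ((crit_ao_S hn).2 hQ)
  obtain ⟨s, κ, hκ, hs, hg⟩ := Pool.Agent.N402.MF21.symb21
  obtain ⟨F, hF, hFp, hF1⟩ := ne21O Pool.Agent.N402.MF21.eigen21 hκ hs (-(n : ℤ))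
    (by
      intro x hx
      rw [dvd_neg] at hx
      exact Int.squarefree_natCast.2 hn.1 x hx)
    (by rw [hab]; have := hn.2.1; omega) (by have := hn.2.1; omega)
    (by
      rw [hab]
      exact neO hg hD hD7 hD21 hD3 hn (cc_neO hP hP3 hn hQ))
  exact rankBSD hF hFp hF1 hfin

/-- **even discriminants** -/
theorem bsdE (hD : S_DIAGE) (hD7 : S_DIAG7E) (hD21 : S_DIAG21E) (hD3 : S_DIAG3E) (hP : S_PARE)
    (hP3 : S_PARA3E) {n : ℕ} (hn : Ae n) (hQ : Qe n) :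
    RankBSD (-5211 * (-((n / 4 : ℕ) : ℤ)) ^ 2) (-31050 * (-((n / 4 : ℕ) : ℤ)) ^ 3) := by
  have hn0 : ((n / 4 : ℕ) : ℤ) ≠ 0 := by
    have := N975.ChE.ev_pos hn.1
    obtain ⟨m, rfl, -⟩ := hn.1
    omega
  have hfin : FinPts (-((n / 4 : ℕ) : ℤ)) :=
    finPts_of (by omega) ((crit_ae_S hn).2 hQ)
  obtain ⟨s, κ, hκ, hs, hg⟩ := Pool.Agent.N402.MF21.symb21
  obtain ⟨F, hF, hFp, hF1⟩ := ne21E Pool.Agent.N402.MF21.eigen21 hκ hs hn.1
    (neE hg hD hD7 hD21 hD3 hn (cc_neE hP hP3 hn hQ))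
  exact rankBSD hF hFp hF1 hfin

end

end Pool.Agent.N975.S21
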