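import Pool.Agent.N975.S21.Lv
import Pool.Agent.N833.P21.CW
import Pool.Agent.N833.P21.CB
import Pool.Agent.N218.P21.Fin
import Pool.Agent.N973.P21.DIAG
import Pool.Agent.N973.P21.DIAG3
import Pool.Agent.N973.P21.CP7
import Pool.Agent.N973.P21.REL
import Pool.Agent.N878.PC21.XC
import Pool.Agent.N878.PC21.PE
import Pool.Agent.N878.PC21.PC3
import Pool.Agent.N712.P21.HE
import Pool.Agent.N693.P21.R
import Pool.Agent.N693.P21.R3b
import Pool.Agent.N693.P21.K4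
import Pool.Agent.N693.P21.Fin
import Pool.Agent.N402.P15.C1B
import Pool.Agent.N402.P15.C1BE

/-!
# The rank form of the Birch and Swinnerton-Dyer conjecture for all the twists of `X_0(21)` by
negative discriminants `-n` such that `3` is not split and `7` is not inert, without ideal class
of order four
-/

set_option autoImplicit false

namespace Pool.Agent.N975.S21.All

open Pool.Agent.N877.P21
open Pool.Agent.N969.P15 (un Ev chE Qc Qe)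
open Pool.Agent.N637.P21 (Ao Ae)
open Pool.Agent.Y687 (RankBSD)

theorem s_CP7 : S_CP7 := N973.P21.t_CP7 N878.PC21.t_PC

theorem s_CP7E : S_CP7E := N973.P21.t_CP7E N878.PC21.t_PCE

theorem s_DIAG : S_DIAG := N973.P21.t_DIAG N402.P15.t_C1B N833.P21.t_C2A N833.P21.t_C2B s_CP7
  N712.P21.t_HE

theorem s_DIAGE : S_DIAGE := N973.P21.t_DIAGE N402.P15.t_C1BE N833.P21.t_C2E s_CP7E
  N712.P21.t_HEE

theorem s_DIAG7 : S_DIAG7 := N973.P21.t_DIAG7 N402.P15.t_C1B N833.P21.t_C27A N833.P21.t_C27B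
  N878.PC21.t_PC N712.P21.t_HE7

theorem s_DIAG7E : S_DIAG7E := N973.P21.t_DIAG7E N402.P15.t_C1BE N833.P21.t_C27E
  N878.PC21.t_PCE N712.P21.t_HE7E

theorem s_DIAG21 : S_DIAG21 := N973.P21.t_DIAG21 N402.P15.t_C1B N833.P21.t_C23A N833.P21.t_C23B
  N878.PC21.t_PC3 N712.P21.t_HE7

theorem s_DIAG21E : S_DIAG21E := N973.P21.t_DIAG21E N402.P15.t_C1BE N833.P21.t_C23E
  N878.PC21.t_PC3E N712.P21.t_HE7E

theorem s_DIAG3 : S_DIAG3 := N973.P21.t_DIAG3 N402.P15.t_C1B N833.P21.t_C23A N833.P21.t_C23B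
  N878.PC21.t_PC3 N712.P21.t_HE

theorem s_DIAG3E : S_DIAG3E := N973.P21.t_DIAG3E N402.P15.t_C1BE N833.P21.t_C23E
  N878.PC21.t_PC3E N712.P21.t_HEE

theorem s_PAR : S_PAR := N218.P21.t_PAR N878.PC21.t_PC N878.PC21.t_PC3w N973.P21.t_REL55 s_CP7
  N693.P21.R.t_R N693.P21.t_RE N693.P21.R3.t_R3 N693.P21.K.t_R3E

theorem s_PARE : S_PARE := N218.P21.t_PARE N878.PC21.t_PC N878.PC21.t_PC3w N973.P21.t_REL55 s_CP7
  N693.P21.R.t_R N693.P21.t_RE N693.P21.R3.t_R3 N693.P21.K.t_R3E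

theorem s_PARA3 : S_PARA3 := N218.P21.t_PARA3 N878.PC21.t_PC N878.PC21.t_PC3w N973.P21.t_REL55
  s_CP7 N693.P21.R.t_R N693.P21.t_RE N693.P21.R3.t_R3 N693.P21.K.t_R3E

theorem s_PARA3E : S_PARA3E := N218.P21.t_PARA3E N878.PC21.t_PC N878.PC21.t_PC3w
  N973.P21.t_REL55 s_CP7 N693.P21.R.t_R N693.P21.t_RE N693.P21.R3.t_R3 N693.P21.K.t_R3E

/-- **odd discriminants** -/
theorem bsd_odd {n : ℕ} (hn : Ao n) (hQ : Qc n) :
    RankBSD (-5211 * (-(n : ℤ)) ^ 2) (-31050 * (-(n : ℤ)) ^ 3) :=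
  bsdO s_DIAG s_DIAG7 s_DIAG21 s_DIAG3 s_PAR s_PARA3 hn hQ

/-- **even discriminants** -/
theorem bsd_even {n : ℕ} (hn : Ae n) (hQ : Qe n) :
    RankBSD (-5211 * (-((n / 4 : ℕ) : ℤ)) ^ 2) (-31050 * (-((n / 4 : ℕ) : ℤ)) ^ 3) :=
  bsdE s_DIAGE s_DIAG7E s_DIAG21E s_DIAG3E s_PARE s_PARA3E hn hQ

end Pool.Agent.N975.S21.All
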