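import Pool.Agent.N975.S21.Val
import Pool.Agent.N975.S17.Ram

/-!
# Comparison of the odd symbol of level `21` with the counting functions
-/

set_option autoImplicit false

open Finset

namespace Pool.Agent.N975.S21

open Pool.Agent.N972.P17 (sg)
open Pool.Agent.N877.P21 (Fp FA)
open Pool.Agent.N969.P15 (un)
open Pool.Agent.N975.S17 (Chr0 sum_unZ)

noncomputable section

/-- the relations of the odd symbol of level `21` -/
structure Sy {R : Type*} [CommRing R] (s : ℚ → R) : Prop where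
  per : ∀ x, s (x + 1) = s x
  neg : ∀ x, s (-x) = -s x
  aff : ∀ {A B C D : ℤ}, A * D - B * (21 * C) = 1 → ∀ r : ℚ, (21 : ℚ) * C * r + D ≠ 0 →
    s ((A * r + B) / ((21 : ℚ) * C * r + D)) = s r + s ((B : ℚ) / D)
  aff_inf : ∀ {A B C D : ℤ}, A * D - B * (21 * C) = 1 → C ≠ 0 →
    s ((A : ℚ) / ((21 : ℚ) * C)) = s ((B : ℚ) / D)

/-- a weight whose cocycle vanishes at the parabolic elements -/
structure Good (k : ℤ × ℤ × ℤ → ℤ) : Prop extends Wt k where
  v : X k 1 21 = 0
  p : X k (-20) (-63) = 0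

theorem goodA : Good kA := ⟨wtA, XA_V, XA_P⟩

theorem goodP : Good kP := ⟨wtP, XP_V, XP_P⟩

variable {R : Type*} [CommRing R] [IsDomain R] [CharZero R] {s : ℚ → R} {k : ℤ × ℤ × ℤ → ℤ}

theorem two_zero {x : R} (h : x = -x) : x = 0 := by
  have h1 : (2 : R) * x = 0 := by linear_combination h
  exact (mul_eq_zero.1 h1).resolve_left two_ne_zero

theorem Sy.zero (H : Sy s) : s 0 = 0 := by
  have h := H.neg 0
  rw [neg_zero] at h
  exact two_zero h

/-- the difference is an odd homomorphism -/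
theorem oddHom (H : Sy s) (G : Good k) : OddHom (fun a b c d : ℤ =>
    (X k 8 21 : R) * s ((b : ℚ) / d) - s (3 / 8) * (X k a (21 * c) : R)) where
  hom := by
    intro a b c d a' b' c' d' h h'
    have hd := d_ne h
    have hd' := d_ne h'
    have hD : 21 * c * b' + d * d' ≠ 0 :=
      d_ne (a := a * a' + b * (21 * c')) (b := a * b' + b * d') (c := c * a' + d * c')
        (by linear_combination h' + (a' * d' - 21 * (b' * c')) * h)
    have hdq : (d : ℚ) ≠ 0 := by exact_mod_cast hd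
    have hdq' : (d' : ℚ) ≠ 0 := by exact_mod_cast hd'
    have hDq : (21 : ℚ) * c * b' + d * d' ≠ 0 := by exact_mod_cast hD
    have h0 : (21 : ℚ) * c * ((b' : ℚ) / d') + d ≠ 0 := by
      intro h1
      apply hDq
      field_simp at h1
      linear_combination h1
    have h1 := H.aff (A := a) (B := b) (C := c) (D := d) (by linear_combination h)
      ((b' : ℚ) / d') h0
    have e1 : ((a : ℚ) * ((b' : ℚ) / d') + b) / ((21 : ℚ) * c * ((b' : ℚ) / d') + d) =
        ((a * b' + b * d' : ℤ) : ℚ) / ((21 * c * b' + d * d' : ℤ) : ℚ) := by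
      push_cast
      rw [div_eq_div_iff h0 hDq]
      field_simp
    rw [e1] at h1
    have h2 := X_hom G.toWt (a := a) (b := b) (c := c) (d := d) (a' := a') (b' := b') (c' := c')
      (d' := d') (by linear_combination h) (by linear_combination h')
    have e2 : 21 * (c * a' + d * c') = 21 * c * a' + d * (21 * c') := by ring
    rw [h1, e2, h2]
    push_cast
    ring
  neg := by
    intro a b c d h
    have e : 21 * (-c) = -(21 * c) := by ring
    rw [e, X_neg_neg]
    push_cast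
    rw [neg_div_neg_eq]
  odd := by
    intro a b c d h
    have e : 21 * (-c) = -(21 * c) := by ring
    rw [e, X_neg' G.toWt]
    push_cast
    rw [neg_div, H.neg]
    ring
  hT := by
    have h1 := H.per 0
    rw [zero_add, H.zero] at h1
    rw [mul_zero, X_inf]
    norm_num
    exact Or.inr h1
  hV := by
    rw [mul_one, G.v]
    norm_num
    exact Or.inr H.zero
  hP := by
    have h1 := H.aff (A := -20) (B := 7) (C := -3) (D := 22) (by norm_num) (1 / 3) (by norm_num)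
    have e1 : (((-20 : ℤ) : ℚ) * (1 / 3) + ((7 : ℤ) : ℚ)) /
        ((21 : ℚ) * ((-3 : ℤ) : ℚ) * (1 / 3) + ((22 : ℤ) : ℚ)) = 1 / 3 := by norm_num
    rw [e1] at h1
    have h2 : s (((7 : ℤ) : ℚ) / ((22 : ℤ) : ℚ)) = 0 := by linear_combination -h1
    have e2 : (21 : ℤ) * -3 = -63 := by norm_num
    rw [h2, e2, G.p]
    push_cast
    ring
  h8 := by
    rw [mul_one]
    push_cast
    ring

/-- **comparison** -/
theorem symb_eq (H : Sy s) (G : Good k) {a b c d : ℤ} (h : a * d - 21 * (b * c) = 1) :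
    (X k 8 21 : R) * s ((b : ℚ) / d) = s (3 / 8) * (X k a (21 * c) : R) :=
  sub_eq_zero.1 ((oddHom H G).zero d.natAbs a b c d h rfl)

/-! ### the four classes of cusps -/

theorem m4_cancel {x y : R} (h : (((-4 : ℤ) : ℤ) : R) * x = y * ((2 : ℤ) : R)) : 2 * x = -y := by
  have h1 : (2 : R) * (2 * x + y) = 0 := by
    push_cast at h
    linear_combination -h
  have h2 := (mul_eq_zero.1 h1).resolve_left two_ne_zero
  linear_combination h2

/-- the class of zero -/
theorem cls0 (H : Sy s) {x n : ℤ} (h : IsCoprime (21 * x) n) :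
    s ((x : ℚ) / n) = s (3 / 8) * (Fp x n : R) := by
  obtain ⟨u, v, huv⟩ := h
  have hdet : v * n - 21 * (x * -u) = 1 := by linear_combination huv
  have h1 := symb_eq H goodP hdet
  have h2 := X_coc wtP (a := v) (b := x) (c := -u) (d := n) (by linear_combination hdet) 0 1
  rw [Z_zero NZ0, X_zero wtP] at h2
  have e1 : v * 0 + x * 1 = x := by ring
  have e2 : 21 * -u * 0 + n * 1 = n := by ring
  rw [e1, e2, add_zero, sub_zero] at h2
  rw [← h2, XP8, XP_eq] at h1
  push_cast at h1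
  have h3 : (2 : R) * (s ((x : ℚ) / n) - s (3 / 8) * (Fp x n : R)) = 0 := by
    linear_combination h1
  exact sub_eq_zero.1 ((mul_eq_zero.1 h3).resolve_left two_ne_zero)

/-- the class of infinity -/
theorem clsI (H : Sy s) {x c : ℤ} (hc : c ≠ 0) (h : IsCoprime x (21 * c)) :
    2 * s ((x : ℚ) / ((21 * c : ℤ) : ℚ)) = -(s (3 / 8) * (FA x (21 * c) : R)) := by
  obtain ⟨u, v, huv⟩ := h
  have hdet : x * u - 21 * (-v * c) = 1 := by linear_combination huv
  have h1 := symb_eq H goodA hdet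
  have h2 := H.aff_inf (A := x) (B := -v) (C := c) (D := u) (by linear_combination hdet) hc
  rw [← h2, XA8, XA_eq] at h1
  push_cast at h1 ⊢
  have h3 : (2 : R) * (2 * s ((x : ℚ) / (21 * c)) + s (3 / 8) * (FA x (21 * c) : R)) = 0 := by
    linear_combination -h1
  have h4 := (mul_eq_zero.1 h3).resolve_left two_ne_zero
  linear_combination h4

/-- the class of one seventh, up to a constant -/
theorem cls7' (H : Sy s) {x m j t : ℤ} (hm : m ≠ 0) (hj : 3 * (x * j) = 1 + t * (7 * m)) :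
    4 * s ((x : ℚ) / ((7 * m : ℤ) : ℚ)) + s (3 / 8) * (X kA x (7 * m) : R) =
      4 * s (1 / 7) + s (3 / 8) * (X kA 1 7 : R) := by
  have hdet : (-6 * x - 7 * t) * (3 * j + 7 * m) - 21 * ((t + x) * (-(2 * m + j))) = 1 := by
    linear_combination hj
  have h1 := symb_eq H goodA hdet
  have h2 := X_coc wtA (a := -6 * x - 7 * t) (b := t + x) (c := -(2 * m + j)) (d := 3 * j + 7 * m)
    (by linear_combination hdet) 1 7
  rw [Z_zero NZ7] at h2
  have e1 : (-6 * x - 7 * t) * 1 + (t + x) * 7 = x := by ring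
  have e2 : 21 * -(2 * m + j) * 1 + (3 * j + 7 * m) * 7 = 7 * m := by ring
  rw [e1, e2, sub_zero] at h2
  have hmq : (m : ℚ) ≠ 0 := by exact_mod_cast hm
  have h0 : (21 : ℚ) * ((-(2 * m + j) : ℤ) : ℚ) * (1 / 7) + ((3 * j + 7 * m : ℤ) : ℚ) = m := by
    push_cast
    ring
  have h3 := H.aff (A := -6 * x - 7 * t) (B := t + x) (C := -(2 * m + j)) (D := 3 * j + 7 * m)
    (by linear_combination hdet) (1 / 7) (by rw [h0]; exact hmq)
  rw [h0] at h3
  have e3 : ((((-6 * x - 7 * t : ℤ) : ℚ)) * (1 / 7) + ((t + x : ℤ) : ℚ)) / m =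
      (x : ℚ) / ((7 * m : ℤ) : ℚ) := by
    push_cast
    rw [div_eq_div_iff hmq (by positivity)]
    ring
  rw [e3] at h3
  rw [XA8] at h1
  rw [h3, h2]
  push_cast at h1 ⊢
  linear_combination -h1

/-- the class of one seventh -/
theorem cls7 (H : Sy s) {x m j t : ℤ} (hm : m ≠ 0) (hj : 3 * (x * j) = 1 + t * (7 * m)) :
    2 * s ((x : ℚ) / ((7 * m : ℤ) : ℚ)) = -(s (3 / 8) * (FA x (7 * m) : R)) := by
  have h1 := cls7' H hm hj
  have h2 := cls7' H (x := -1) (m := 1) (j := 2) (t := -1) one_ne_zero (by norm_num)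
  have e1 : (((-1 : ℤ) : ℚ)) / ((7 * 1 : ℤ) : ℚ) = -(1 / 7) := by norm_num
  rw [e1, H.neg, X_neg wtA] at h2
  have e2 : (7 : ℤ) * 1 = 7 := by norm_num
  rw [e2] at h2
  push_cast at h2
  have h3 : 4 * s (1 / 7) + s (3 / 8) * (X kA 1 7 : R) = 0 := two_zero (by linear_combination -h2)
  rw [h3, XA_eq] at h1
  push_cast at h1 ⊢
  have h4 : (2 : R) * (2 * s ((x : ℚ) / (7 * m)) + s (3 / 8) * (FA x (7 * m) : R)) = 0 := by
    linear_combination h1
  have h5 := (mul_eq_zero.1 h4).resolve_left two_ne_zero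
  linear_combination h5

theorem sg_mod {x y M : ℤ} (h : M ∣ x - y) : sg x M = sg y M := by
  have h1 : x % M = y % M :=
    Int.emod_eq_emod_iff_emod_sub_eq_zero.2 (Int.emod_eq_zero_of_dvd h)
  unfold sg
  rw [h1]

/-- the class of one third, up to a constant -/
theorem cls3' (H : Sy s) {x m j t : ℤ} (hm : 0 < m) (hj : 7 * (x * j) = 1 + t * (3 * m)) :
    4 * s ((x : ℚ) / ((3 * m : ℤ) : ℚ)) +
      s (3 / 8) * ((X kA x (3 * m) + sg (7 * j) (3 * m) - sg j (3 * m) : ℤ) : R) =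
      4 * s (1 / 3) + s (3 / 8) * (X kA 1 3 : R) := by
  have hdet : (7 * x - 3 * t) * (7 * j - 6 * m) - 21 * ((t - 2 * x) * (m - j)) = 1 := by
    linear_combination hj
  have h1 := symb_eq H goodA hdet
  have h2 := X_coc wtA (a := 7 * x - 3 * t) (b := t - 2 * x) (c := m - j) (d := 7 * j - 6 * m)
    (by linear_combination hdet) 1 3
  have e0 : 3 * (7 * j - 6 * m) - -(21 * (m - j)) = 3 * m := by ring
  rw [Z3A (j := j) (by rw [e0]; omega) (by rw [e0]; ring), e0] at h2
  have e1 : (7 * x - 3 * t) * 1 + (t - 2 * x) * 3 = x := by ring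
  have e2 : 21 * (m - j) * 1 + (7 * j - 6 * m) * 3 = 3 * m := by ring
  have e4 : sg (7 * j - 6 * m) (3 * m) = sg (7 * j) (3 * m) := sg_mod ⟨-2, by ring⟩
  rw [e1, e2, e4] at h2
  have hmq : (m : ℚ) ≠ 0 := by exact_mod_cast hm.ne'
  have h0 : (21 : ℚ) * ((m - j : ℤ) : ℚ) * (1 / 3) + ((7 * j - 6 * m : ℤ) : ℚ) = m := by
    push_cast
    ring
  have h3 := H.aff (A := 7 * x - 3 * t) (B := t - 2 * x) (C := m - j) (D := 7 * j - 6 * m)
    (by linear_combination hdet) (1 / 3) (by rw [h0]; exact hmq)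
  rw [h0] at h3
  have e3 : ((((7 * x - 3 * t : ℤ) : ℚ)) * (1 / 3) + ((t - 2 * x : ℤ) : ℚ)) / m =
      (x : ℚ) / ((3 * m : ℤ) : ℚ) := by
    push_cast
    rw [div_eq_div_iff hmq (by positivity)]
    ring
  rw [e3] at h3
  rw [XA8] at h1
  rw [h3, h2]
  push_cast at h1 ⊢
  linear_combination -h1

theorem K3 (H : Sy s) : 4 * s (1 / 3) + s (3 / 8) * (X kA 1 3 : R) = 0 := by
  have h2 := cls3' H (x := -1) (m := 1) (j := 2) (t := -5) one_pos (by norm_num)
  have e1 : (((-1 : ℤ) : ℚ)) / ((3 * 1 : ℤ) : ℚ) = -(1 / 3) := by norm_num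
  have e3 : sg (7 * 2) (3 * 1) = -1 := rfl
  have e4 : sg 2 (3 * 1) = -1 := rfl
  have e2 : (3 : ℤ) * 1 = 3 := by norm_num
  rw [e1, H.neg, e3, e4, e2, X_neg wtA] at h2
  push_cast at h2
  exact two_zero (by linear_combination -h2)

/-- the class of one third -/
theorem cls3 (H : Sy s) {x m j t : ℤ} (hm : 0 < m) (hj : 7 * (x * j) = 1 + t * (3 * m)) :
    4 * s ((x : ℚ) / ((3 * m : ℤ) : ℚ)) =
      -(s (3 / 8) * ((2 * FA x (3 * m) + sg (7 * j) (3 * m) - sg j (3 * m) : ℤ) : R)) := by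
  have h1 := cls3' H hm hj
  rw [K3 H, XA_eq] at h1
  linear_combination h1

theorem FA13 : FA 1 3 = -1 := by
  classical
  unfold FA
  have hs : Function.support (fun q : ℤ × ℤ × ℤ => if N877.P21.FmA q ∧ 0 < q.1 ∧
      q.1 * 1 ^ 2 + q.2.1 * 1 * 3 + q.2.2 * 3 ^ 2 < 0 then N877.P21.cA q else 0) ⊆
      ((({(3, -2, 0)} : Finset (ℤ × ℤ × ℤ)) : Finset (ℤ × ℤ × ℤ)) : Set (ℤ × ℤ × ℤ)) := by
    rintro ⟨A, B, C⟩ hq
    rw [Function.mem_support] at hq
    by_cases h : N877.P21.FmA (A, B, C) ∧ 0 < A ∧ A * 1 ^ 2 + B * 1 * 3 + C * 3 ^ 2 < 0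
    · obtain ⟨⟨h1, ⟨A1, h2⟩, h3, h4⟩, h5, h6⟩ := h
      simp only at h1 h2 h3 h4
      have h44 : A * Pool.Agent.N975.Sym.ev (A, B, C) 1 3 < 0 := mul_neg_of_pos_of_neg h5 h6
      obtain ⟨h7, h8⟩ := Pool.Agent.N975.Sym.bound (q := (A, B, C)) h1 h44
      simp only at h7 h8
      rw [abs_of_pos h5] at h7
      rw [abs_lt] at h8
      norm_num at h7 h8
      obtain ⟨h8, h9⟩ := h8
      obtain ⟨B1, rfl⟩ : ∃ B1, B = 2 * B1 := ⟨B / 2, by omega⟩
      subst h2
      have hA1 : 1 ≤ A1 ∧ A1 ≤ 3 := by omega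
      obtain ⟨hA1, hA2⟩ := hA1
      have hB1 : -5 ≤ B1 ∧ B1 ≤ 1 := by omega
      obtain ⟨hB1, hB2⟩ := hB1
      simp only [Finset.coe_singleton, Set.mem_singleton_iff, Prod.mk.injEq]
      interval_cases A1 <;> interval_cases B1 <;> omega
    · exact absurd (if_neg h) hq
  rw [finsum_eq_sum_of_support_subset _ hs, Finset.sum_singleton]
  rw [if_pos ⟨⟨by norm_num, by norm_num, by norm_num, by norm_num⟩, by norm_num, by norm_num⟩]
  rfl

/-- the constant in terms of the value at one third -/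
theorem lam_eq (H : Sy s) : s (3 / 8) = 2 * s (1 / 3) := by
  have h := K3 H
  rw [XA_eq, FA13] at h
  push_cast at h
  have h1 : (2 : R) * (s (3 / 8) - 2 * s (1 / 3)) = 0 := by linear_combination -h
  exact sub_eq_zero.1 ((mul_eq_zero.1 h1).resolve_left two_ne_zero)

end

end Pool.Agent.N975.S21
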