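import Mathlib

/-!
# Uniqueness of odd parabolic homomorphisms on `Γ₀(21)`
-/

set_option autoImplicit false

namespace Pool.Agent.N975.S21

theorem d_ne {a b c d : ℤ} (h : a * d - 21 * (b * c) = 1) : d ≠ 0 := by
  rintro rfl
  rw [mul_zero] at h
  omega

/-- an odd homomorphism on `Γ₀(21)` vanishing at the parabolic elements of the cusps `∞`, `0`,
`1 / 3` and at `(8, 3; 21, 8)` -/
structure OddHom {R : Type*} [AddCommGroup R] (φ : ℤ → ℤ → ℤ → ℤ → R) : Prop where
  hom : ∀ {a b c d a' b' c' d' : ℤ}, a * d - 21 * (b * c) = 1 → a' * d' - 21 * (b' * c') = 1 →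
    φ (a * a' + b * (21 * c')) (a * b' + b * d') (c * a' + d * c') (21 * c * b' + d * d') =
      φ a b c d + φ a' b' c' d'
  neg : ∀ {a b c d : ℤ}, a * d - 21 * (b * c) = 1 → φ (-a) (-b) (-c) (-d) = φ a b c d
  odd : ∀ {a b c d : ℤ}, a * d - 21 * (b * c) = 1 → φ a (-b) (-c) d = -φ a b c d
  hT : φ 1 1 0 1 = 0
  hV : φ 1 0 1 1 = 0
  hP : φ (-20) 7 (-3) 22 = 0
  h8 : φ 8 3 1 8 = 0

namespace OddHom

variable {R : Type*} [AddCommGroup R] [NoZeroSMulDivisors ℤ R] {φ : ℤ → ℤ → ℤ → ℤ → R}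

omit [NoZeroSMulDivisors ℤ R] in
theorem one (H : OddHom φ) : φ 1 0 0 1 = 0 := by
  have h := H.hom (a := 1) (b := 0) (c := 0) (d := 1) (a' := 1) (b' := 0) (c' := 0) (d' := 1)
    (by norm_num) (by norm_num)
  norm_num at h
  exact h

omit [NoZeroSMulDivisors ℤ R] in
theorem hTk (H : OddHom φ) (k : ℤ) : φ 1 k 0 1 = 0 := by
  induction k using Int.induction_on with
  | zero => exact H.one
  | succ n ih =>
    have h := H.hom (a := 1) (b := n) (c := 0) (d := 1) (a' := 1) (b' := 1) (c' := 0) (d' := 1)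
      (by norm_num) (by norm_num)
    rw [ih, H.hT, add_zero] at h
    ring_nf at h ⊢
    exact h
  | pred n ih =>
    have h := H.hom (a := 1) (b := -(n : ℤ) - 1) (c := 0) (d := 1) (a' := 1) (b' := 1) (c' := 0)
      (d' := 1) (by norm_num) (by norm_num)
    rw [H.hT, add_zero] at h
    rw [← h, ← ih]
    ring_nf

omit [NoZeroSMulDivisors ℤ R] in
theorem hVk (H : OddHom φ) (k : ℤ) : φ 1 0 k 1 = 0 := by
  induction k using Int.induction_on with
  | zero => exact H.one
  | succ n ih =>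
    have h := H.hom (a := 1) (b := 0) (c := n) (d := 1) (a' := 1) (b' := 0) (c' := 1) (d' := 1)
      (by norm_num) (by norm_num)
    rw [ih, H.hV, add_zero] at h
    ring_nf at h ⊢
    exact h
  | pred n ih =>
    have h := H.hom (a := 1) (b := 0) (c := -(n : ℤ) - 1) (d := 1) (a' := 1) (b' := 0) (c' := 1)
      (d' := 1) (by norm_num) (by norm_num)
    rw [H.hV, add_zero] at h
    rw [← h, ← ih]
    ring_nf

omit [NoZeroSMulDivisors ℤ R] in
theorem inv (H : OddHom φ) {a b c d : ℤ} (h : a * d - 21 * (b * c) = 1) :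
    φ d (-b) (-c) a = -φ a b c d := by
  have h1 := H.hom (a := a) (b := b) (c := c) (d := d) (a' := d) (b' := -b) (c' := -c) (d' := a)
    h (by linear_combination h)
  have e1 : a * d + b * (21 * -c) = 1 := by linear_combination h
  have e2 : a * -b + b * a = 0 := by ring
  have e3 : c * d + d * -c = 0 := by ring
  have e4 : 21 * c * -b + d * a = 1 := by linear_combination h
  rw [e1, e2, e3, e4, H.one] at h1
  rw [eq_neg_iff_add_eq_zero, add_comm]
  exact h1.symm

omit [NoZeroSMulDivisors ℤ R] in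
/-- the transpose-type symmetry -/
theorem tr (H : OddHom φ) {a b c d : ℤ} (h : a * d - 21 * (b * c) = 1) :
    φ d b c a = φ a b c d := by
  have h' : d * a - 21 * (b * c) = 1 := by linear_combination h
  have h1 := H.odd h'
  rw [H.inv h] at h1
  exact (neg_injective h1).symm

omit [NoZeroSMulDivisors ℤ R] in
theorem ref (H : OddHom φ) {a b c d : ℤ} (h : a * d - 21 * (b * c) = 1) :
    φ (-a) b c (-d) = -φ a b c d := by
  have h' : (-a) * (-d) - 21 * (b * c) = 1 := by linear_combination h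
  have h1 := H.neg h'
  rw [neg_neg, neg_neg] at h1
  rw [← h1, H.odd h]

omit [NoZeroSMulDivisors ℤ R] in
/-- invariance under translations -/
theorem trans (H : OddHom φ) {a b c d : ℤ} (h : a * d - 21 * (b * c) = 1) (j k : ℤ) :
    φ (a + 21 * c * j) (b + j * d + k * (a + 21 * c * j)) c (d + 21 * c * k) = φ a b c d := by
  have h1 := H.hom (a := 1) (b := j) (c := 0) (d := 1) (a' := a) (b' := b) (c' := c) (d' := d)
    (by norm_num) h
  have h2 : (1 * a + j * (21 * c)) * (21 * 0 * b + 1 * d) - 21 * ((1 * b + j * d) *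
      (0 * a + 1 * c)) = 1 := by linear_combination h
  have h3 := H.hom (a := 1 * a + j * (21 * c)) (b := 1 * b + j * d) (c := 0 * a + 1 * c)
    (d := 21 * 0 * b + 1 * d) (a' := 1) (b' := k) (c' := 0) (d' := 1) h2 (by norm_num)
  rw [h1, H.hTk, H.hTk, zero_add, add_zero] at h3
  rw [← h3]
  congr 1 <;> ring

omit [NoZeroSMulDivisors ℤ R] in
/-- the value at `(A, B; 21 c, D)` only depends on `c` and on `D` modulo `21 c` -/
theorem modD (H : OddHom φ) {c A B D A' B' D' : ℤ} (hc : c ≠ 0)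
    (h : A * D - 21 * (B * c) = 1)
    (h' : A' * D' - 21 * (B' * c) = 1) (hD : 21 * c ∣ D' - D) : φ A' B' c D' = φ A B c D := by
  obtain ⟨k, hk⟩ := hD
  have hA : 21 * c ∣ A' - A := by
    have h1 : A' - A = 21 * c * (A * B' - A' * B - k * A * A') := by
      linear_combination -A' * h + A * h' - A * A' * hk
    exact ⟨_, h1⟩
  obtain ⟨j, hj⟩ := hA
  have h1 := H.trans h j k
  rw [← h1]
  have e1 : A' = A + 21 * c * j := by linear_combination hj
  have e2 : D' = D + 21 * c * k := by linear_combination hk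
  have e3 : B' = B + j * D + k * (A + 21 * c * j) := by
    rw [e1, e2] at h'
    have h4 : (21 * c) * B' = (21 * c) * (B + j * D + k * (A + 21 * c * j)) := by
      linear_combination h - h'
    exact mul_left_cancel₀ (by omega) h4
  rw [← e3, ← e1, ← e2]

omit [NoZeroSMulDivisors ℤ R] in
theorem step (H : OddHom φ) {A B D A' B' : ℤ} (h : A * D - 21 * (B * 1) = 1)
    (h' : A' * (D + 1) - 21 * (B' * 1) = 1) :
    φ (A * (D + 1) - 21 * B) (B * A' - A * B') 1 (D * A' - 21 * B') =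
      φ A B 1 D - φ A' B' 1 (D + 1) := by
  have h1 := H.inv h'
  have h2 := H.hom (a := A) (b := B) (c := 1) (d := D) (a' := D + 1) (b' := -B') (c' := -1)
    (d' := A') h (by linear_combination h')
  rw [h1, ← sub_eq_add_neg] at h2
  rw [← h2]
  congr 1 <;> ring

theorem smul_zero' {x : R} {n : ℤ} (hn : n ≠ 0) (h : n • x = 0) : x = 0 :=
  (smul_eq_zero.1 h).resolve_left hn

/-- the value at `(11, 1; 21, 2)` -/
theorem g2 (H : OddHom φ) : φ 11 1 1 2 = 0 := by
  have h1 := H.step (A := 1) (B := 0) (D := 1) (A' := 11) (B' := 1) (by norm_num) (by norm_num)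
  norm_num at h1
  rw [H.hV, zero_sub] at h1
  -- `(2, -1; 21, -10)`
  have h3 := H.ref (by norm_num : (2 : ℤ) * 11 - 21 * (1 * 1) = 1)
  have h4 : φ 2 1 1 11 = φ 11 1 1 2 := H.tr (by norm_num)
  have h5 : φ 2 (-1) 1 (-10) = φ 2 1 1 11 :=
    H.modD one_ne_zero (by norm_num) (by norm_num) (by norm_num)
  rw [h5, h4] at h1
  have h6 : (2 : ℤ) • φ 11 1 1 2 = 0 := by
    rw [two_smul]
    nth_rewrite 1 [h1]
    exact neg_add_cancel _
  exact smul_zero' (by norm_num) h6

theorem g10 (H : OddHom φ) : φ 19 9 1 10 = 0 := by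
  have h3 := H.ref (by norm_num : (2 : ℤ) * 11 - 21 * (1 * 1) = 1)
  have h4 : φ 2 1 1 11 = φ 11 1 1 2 := H.tr (by norm_num)
  have h5 : φ 19 9 1 10 = φ (-2) 1 1 (-11) :=
    H.modD one_ne_zero (by norm_num) (by norm_num) (by norm_num)
  rw [h5, h3, h4, H.g2, neg_zero]

/-- the value at `(17, 4; 21, 5)` -/
theorem g5 (H : OddHom φ) : φ 17 4 1 5 = 0 := by
  have h1 := H.step (A := 16) (B := 3) (D := 4) (A' := 17) (B' := 4) (by norm_num) (by norm_num)
  norm_num at h1
  -- `(17, 4; 21, 5)` on the left, `(16, 3; 21, 4)` is `-` the value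
  have h2 : φ 17 (-13) 1 (-16) = φ 17 4 1 5 :=
    H.modD one_ne_zero (by norm_num) (by norm_num) (by norm_num)
  have h3 := H.ref (by norm_num : (5 : ℤ) * 17 - 21 * (4 * 1) = 1)
  have h4 : φ 5 4 1 17 = φ 17 4 1 5 := H.tr (by norm_num)
  have h5 : φ 16 3 1 4 = φ (-5) 4 1 (-17) :=
    H.modD one_ne_zero (by norm_num) (by norm_num) (by norm_num)
  rw [h2, h5, h3, h4] at h1
  have h6 : (3 : ℤ) • φ 17 4 1 5 = 0 := by
    have h7 : (3 : ℤ) • φ 17 4 1 5 = φ 17 4 1 5 - (-φ 17 4 1 5 - φ 17 4 1 5) := by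
      rw [show (3 : ℤ) = 1 + 1 + 1 by norm_num, add_smul, add_smul, one_smul]
      abel
    rw [h7, ← h1, sub_self]
  exact smul_zero' (by norm_num) h6

theorem g4 (H : OddHom φ) : φ 16 3 1 4 = 0 := by
  have h3 := H.ref (by norm_num : (5 : ℤ) * 17 - 21 * (4 * 1) = 1)
  have h4 : φ 5 4 1 17 = φ 17 4 1 5 := H.tr (by norm_num)
  have h5 : φ 16 3 1 4 = φ (-5) 4 1 (-17) :=
    H.modD one_ne_zero (by norm_num) (by norm_num) (by norm_num)
  rw [h5, h3, h4, H.g5, neg_zero]

/-- the values at the generators with `c = 1` -/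
theorem gen1 (H : OddHom φ) {A B D : ℤ} (h : A * D - 21 * (B * 1) = 1) : φ A B 1 D = 0 := by
  have key : ∀ {A0 B0 D0 : ℤ}, A0 * D0 - 21 * (B0 * 1) = 1 → φ A0 B0 1 D0 = 0 →
      ((21 : ℤ) ∣ D - D0 ∨ (21 : ℤ) ∣ D + D0) → φ A B 1 D = 0 := by
    intro A0 B0 D0 h0 h1 h2
    rcases h2 with h2 | h2
    · rw [H.modD one_ne_zero h0 h (by rwa [mul_one]), h1]
    · have h3 := H.ref h0
      have h4 : (-A0) * (-D0) - 21 * (B0 * 1) = 1 := by linear_combination h0
      rw [H.modD one_ne_zero h4 h (by rwa [mul_one, sub_neg_eq_add]), h3, h1, neg_zero]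
  have hD3 : ¬ (3 : ℤ) ∣ D := by
    rintro ⟨k, rfl⟩
    have h1 : (3 : ℤ) ∣ 1 := ⟨A * k - 7 * B, by linear_combination -h⟩
    norm_num at h1
  have hD7 : ¬ (7 : ℤ) ∣ D := by
    rintro ⟨k, rfl⟩
    have h1 : (7 : ℤ) ∣ 1 := ⟨A * k - 3 * B, by linear_combination -h⟩
    norm_num at h1
  have hc : ((21 : ℤ) ∣ D - 1 ∨ (21 : ℤ) ∣ D + 1) ∨ ((21 : ℤ) ∣ D - 2 ∨ (21 : ℤ) ∣ D + 2) ∨
      ((21 : ℤ) ∣ D - 4 ∨ (21 : ℤ) ∣ D + 4) ∨ ((21 : ℤ) ∣ D - 5 ∨ (21 : ℤ) ∣ D + 5) ∨
      ((21 : ℤ) ∣ D - 8 ∨ (21 : ℤ) ∣ D + 8) ∨ ((21 : ℤ) ∣ D - 10 ∨ (21 : ℤ) ∣ D + 10) := by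
    have key2 : ∀ r : ℕ, r < 21 → ¬ r % 3 = 0 → ¬ r % 7 = 0 →
        (r = 1 ∨ r = 20) ∨ (r = 2 ∨ r = 19) ∨ (r = 4 ∨ r = 17) ∨ (r = 5 ∨ r = 16) ∨
        (r = 8 ∨ r = 13) ∨ (r = 10 ∨ r = 11) := by
      intro r hr h1 h2
      interval_cases r <;> simp at h1 h2 ⊢
    obtain ⟨r, hr⟩ : ∃ r : ℕ, (r : ℤ) = D % 21 := ⟨(D % 21).toNat, by omega⟩
    have h3 := key2 r (by omega) (by omega) (by omega)
    rcases h3 with (h3 | h3) | (h3 | h3) | (h3 | h3) | (h3 | h3) | (h3 | h3) | (h3 | h3) <;>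
      subst h3
    · exact Or.inl (Or.inl (by omega))
    · exact Or.inl (Or.inr (by omega))
    · exact Or.inr (Or.inl (Or.inl (by omega)))
    · exact Or.inr (Or.inl (Or.inr (by omega)))
    · exact Or.inr (Or.inr (Or.inl (Or.inl (by omega))))
    · exact Or.inr (Or.inr (Or.inl (Or.inr (by omega))))
    · exact Or.inr (Or.inr (Or.inr (Or.inl (Or.inl (by omega)))))
    · exact Or.inr (Or.inr (Or.inr (Or.inl (Or.inr (by omega)))))
    · exact Or.inr (Or.inr (Or.inr (Or.inr (Or.inl (Or.inl (by omega))))))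
    · exact Or.inr (Or.inr (Or.inr (Or.inr (Or.inl (Or.inr (by omega))))))
    · exact Or.inr (Or.inr (Or.inr (Or.inr (Or.inr (Or.inl (by omega))))))
    · exact Or.inr (Or.inr (Or.inr (Or.inr (Or.inr (Or.inr (by omega))))))
  rcases hc with hc | hc | hc | hc | hc | hc
  · exact key (A0 := 1) (B0 := 0) (by norm_num) H.hV hc
  · exact key (A0 := 11) (B0 := 1) (by norm_num) H.g2 hc
  · exact key (A0 := 16) (B0 := 3) (by norm_num) H.g4 hc
  · exact key (A0 := 17) (B0 := 4) (by norm_num) H.g5 hc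
  · exact key (A0 := 8) (B0 := 3) (by norm_num) H.h8 hc
  · exact key (A0 := 19) (B0 := 9) (by norm_num) H.g10 hc

omit [NoZeroSMulDivisors ℤ R] in
/-- the value at `(13, 4; 42, 13)` -/
theorem h13 (H : OddHom φ) : φ 13 4 2 13 = 0 := by
  have h1 := H.hom (a := -13) (b := 4) (c := 2) (d := -13) (a' := -20) (b' := 7) (c' := -3)
    (d' := 22) (by norm_num) (by norm_num)
  norm_num at h1
  have h2 := H.odd (by norm_num : (8 : ℤ) * 8 - 21 * (3 * 1) = 1)
  rw [h2, H.h8, H.hP, neg_zero, add_zero] at h1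
  have h3 := H.ref (by norm_num : (13 : ℤ) * 13 - 21 * (4 * 2) = 1)
  rw [h3] at h1
  exact neg_eq_zero.1 h1.symm

omit [NoZeroSMulDivisors ℤ R] in
/-- the values at the generators with `c = 2` -/
theorem gen2 (H : OddHom φ) {A B D : ℤ} (h : A * D - 21 * (B * 2) = 1)
    (hD : (42 : ℤ) ∣ D - 13 ∨ (42 : ℤ) ∣ D + 13) : φ A B 2 D = 0 := by
  rcases hD with h2 | h2
  · rw [H.modD two_ne_zero (by norm_num : (13 : ℤ) * 13 - 21 * (4 * 2) = 1) h (by norm_num; exact h2),
      H.h13]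
  · have h3 := H.ref (by norm_num : (13 : ℤ) * 13 - 21 * (4 * 2) = 1)
    rw [H.modD two_ne_zero (by norm_num : (-13 : ℤ) * (-13) - 21 * (4 * 2) = 1) h
      (by norm_num; exact h2), h3, H.h13, neg_zero]

omit [NoZeroSMulDivisors ℤ R] in
theorem base (H : OddHom φ) {a b c : ℤ} (h : a * 1 - 21 * (b * c) = 1) : φ a b c 1 = 0 := by
  have h1 := H.hom (a := 1) (b := b) (c := 0) (d := 1) (a' := 1) (b' := 0) (c' := c) (d' := 1)
    (by norm_num) (by norm_num)
  rw [H.hTk, H.hVk, add_zero] at h1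
  rw [← h1]
  congr 1
  · linear_combination h
  · ring
  · ring

/-- the homomorphism vanishes -/
theorem zero (H : OddHom φ) (n : ℕ) : ∀ a b c d : ℤ, a * d - 21 * (b * c) = 1 → d.natAbs = n →
    φ a b c d = 0 := by
  induction n using Nat.strong_induction_on with
  | _ n ih =>
    intro a b c d h hn
    have hd := d_ne h
    by_cases h1 : d = 1
    · subst h1
      exact H.base h
    by_cases h2 : d = -1
    · subst h2
      rw [← H.neg h]
      exact H.base (by linear_combination h)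
    -- the reduction
    have hnd : ¬ d ∣ 21 * b := by
      rintro ⟨k, hk⟩
      have h3 : d ∣ 1 := ⟨a - k * c, by linear_combination -h - c * hk⟩
      rcases Int.isUnit_iff.1 (isUnit_of_dvd_one h3) with h4 | h4
      · exact h1 h4
      · exact h2 h4
    wlog hdp : 0 < d generalizing a b c d
    · have h3 := this (-a) (-b) (-c) (-d) (by linear_combination h) (by rw [Int.natAbs_neg, hn])
        (by omega) (by omega) (by omega)
        (by
          intro h4
          apply hnd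
          have h5 : 21 * -b = -(21 * b) := by ring
          rw [h5, dvd_neg, neg_dvd] at h4
          exact h4) (by omega)
      rwa [H.neg h] at h3
    have hr0 := Int.emod_nonneg (21 * b) hd
    have hr1 := Int.emod_lt_of_pos (21 * b) hdp
    have hr2 : 21 * b % d ≠ 0 := fun h3 => hnd (Int.dvd_of_emod_eq_zero h3)
    have hr3 := Int.emod_add_mul_ediv (21 * b) d
    have step1 : ∀ c0 D : ℤ, c0 ≠ 0 → (∀ A B : ℤ, A * D - 21 * (B * c0) = 1 → φ A B c0 D = 0) →
        IsCoprime D (21 * c0) → |21 * c0 * b + D * d| < |d| → φ a b c d = 0 := by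
      intro c0 D hc0 hg hcop hlt
      obtain ⟨u, v, huv⟩ := hcop
      have hAB : u * D - 21 * (-v * c0) = 1 := by linear_combination huv
      have h3 := H.hom (a := u) (b := -v) (c := c0) (d := D) (a' := a) (b' := b) (c' := c)
        (d' := d) hAB h
      rw [hg _ _ hAB, zero_add] at h3
      rw [← h3]
      refine ih _ ?_ _ _ _ _ ?_ rfl
      · rw [← hn]
        zify
        exact hlt
      · linear_combination h + (a * d - 21 * (b * c)) * hAB
    have cop21 : ∀ D : ℤ, ¬ (3 : ℤ) ∣ D → ¬ (7 : ℤ) ∣ D → IsCoprime D 21 := by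
      intro D h3 h7
      have e : (21 : ℤ) = 3 * 7 := by norm_num
      rw [e]
      refine IsCoprime.mul_right ?_ ?_
      · rw [isCoprime_comm]
        exact (Int.prime_iff_natAbs_prime.2 (by norm_num)).coprime_iff_not_dvd.2 h3
      · rw [isCoprime_comm]
        exact (Int.prime_iff_natAbs_prime.2 (by norm_num)).coprime_iff_not_dvd.2 h7
    have s1 : ∀ D : ℤ, ¬ (3 : ℤ) ∣ D → ¬ (7 : ℤ) ∣ D → |21 * b + D * d| < |d| →
        φ a b c d = 0 := by
      intro D h3 h7 hlt
      refine step1 1 D one_ne_zero (fun A B hAB => H.gen1 hAB) ?_ ?_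
      · rw [mul_one]
        exact cop21 D h3 h7
      · rw [mul_one]
        exact hlt
    set t := 21 * b / d with ht
    by_cases c1 : (3 : ℤ) ∣ t ∨ (7 : ℤ) ∣ t
    · by_cases c2 : (3 : ℤ) ∣ (t + 1) ∨ (7 : ℤ) ∣ (t + 1)
      · -- `c = 2`
        have hD : (42 : ℤ) ∣ -(2 * t + 1) - 13 ∨ (42 : ℤ) ∣ -(2 * t + 1) + 13 := by omega
        refine step1 2 (-(2 * t + 1)) two_ne_zero (fun A B hAB => H.gen2 hAB hD) ?_ ?_
        · have e : (21 : ℤ) * 2 = 2 * 21 := by norm_num
          rw [e]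
          refine IsCoprime.mul_right ⟨-1, -t, by ring⟩ (cop21 _ (by omega) (by omega))
        · have e : 21 * 2 * b + -(2 * t + 1) * d = 2 * (21 * b % d) - d := by
            rw [ht]
            linear_combination -2 * hr3
          rw [e, abs_of_pos hdp, abs_lt]
          constructor <;> omega
      · rw [not_or] at c2
        refine s1 (-(t + 1)) (by omega) (by omega) ?_
        have e : 21 * b + -(t + 1) * d = 21 * b % d - d := by
          rw [ht]
          linear_combination -hr3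
        rw [e, abs_of_pos hdp, abs_lt]
        constructor <;> omega
    · rw [not_or] at c1
      refine s1 (-t) (by omega) (by omega) ?_
      have e : 21 * b + -t * d = 21 * b % d := by
        rw [ht]
        linear_combination -hr3
      rw [e, abs_of_nonneg hr0, abs_of_pos hdp]
      exact hr1

end OddHom

end Pool.Agent.N975.S21
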