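import Pool.Agent.N877.P21.Defs
import Pool.Agent.N975.S17.Hom
import Pool.Agent.N975.S21.Hom

/-!
# The counting cocycles of invariant weights on the forms of discriminant `4`, level `21`
-/

set_option autoImplicit false

namespace Pool.Agent.N975.S21

open Pool.Agent.N975.Sym (ev kq act act_inv eqv ev_act kq_eq dec2 ev10 key bound)
open Pool.Agent.N975.S17 (sign_cases fin_eqv sum_eqv finsum_family finite_family ev_neg_neg ev01)

noncomputable section

/-- an invariant weight -/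
structure Wt (k : ℤ × ℤ × ℤ → ℤ) : Prop where
  disc : ∀ q, k q ≠ 0 → q.2.1 ^ 2 - 4 * q.1 * q.2.2 = 4
  inv : ∀ {a b c d : ℤ}, a * d - b * c = 1 → (21 : ℤ) ∣ c → ∀ q, k (act a b c d q) = k q
  ninf : ∀ q, q.1 = 0 → k q = 0
  par : ∀ A B C, k (-A, B, -C) = k (A, B, C)

variable {k : ℤ × ℤ × ℤ → ℤ}

open Classical in
/-- the difference of the signs at two points if no sign vanishes -/
def U (k : ℤ × ℤ × ℤ → ℤ) (x m y n : ℤ) (q : ℤ × ℤ × ℤ) : ℤ :=
  if ev q x m ≠ 0 ∧ ev q y n ≠ 0 then k q * (Int.sign (ev q x m) - Int.sign (ev q y n)) else 0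

open Classical in
/-- the difference of the signs for the forms vanishing at a cusp -/
def Z (k : ℤ × ℤ × ℤ → ℤ) (x₀ m₀ x m : ℤ) (q : ℤ × ℤ × ℤ) : ℤ :=
  if ev q x₀ m₀ = 0 then k q * (Int.sign (ev q x m) - Int.sign (ev q 1 0)) else 0

/-- the sum of the differences of the signs between infinity and `x / m` -/
def X (k : ℤ × ℤ × ℤ → ℤ) (x m : ℤ) : ℤ := ∑ᶠ q, U k 1 0 x m q

theorem U_ne {x m : ℤ} {q : ℤ × ℤ × ℤ} (h : U k 1 0 x m q ≠ 0) :
    k q ≠ 0 ∧ q.1 * ev q x m < 0 := by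
  unfold U at h
  by_cases hq : ev q 1 0 ≠ 0 ∧ ev q x m ≠ 0
  · rw [if_pos hq, ev10] at h
    refine ⟨fun h0 => h (by rw [h0, zero_mul]), ?_⟩
    have h1 : Int.sign (ev q x m) ≠ Int.sign q.1 := by
      intro h2
      apply h
      rw [h2, sub_self, mul_zero]
    have h2 := hq.1
    rw [ev10] at h2
    have h3 := hq.2
    rcases lt_or_gt_of_ne h2 with h4 | h4
    · rcases lt_or_gt_of_ne h3 with h5 | h5
      · exact absurd (by rw [Int.sign_eq_neg_one_of_neg h4, Int.sign_eq_neg_one_of_neg h5]) h1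
      · exact mul_neg_of_neg_of_pos h4 h5
    · rcases lt_or_gt_of_ne h3 with h5 | h5
      · exact mul_neg_of_pos_of_neg h4 h5
      · exact absurd (by rw [Int.sign_eq_one_of_pos h4, Int.sign_eq_one_of_pos h5]) h1
  · rw [if_neg hq] at h
    exact absurd rfl h

theorem U_m_zero (x : ℤ) (q : ℤ × ℤ × ℤ) : U k 1 0 x 0 q = 0 := by
  unfold U
  have e1 : ev q x 0 = q.1 * x ^ 2 := by unfold ev; ring
  rw [ev10, e1]
  by_cases h : q.1 ≠ 0 ∧ q.1 * x ^ 2 ≠ 0
  · rw [if_pos h]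
    have hx : x ≠ 0 := by
      rintro rfl
      exact h.2 (by ring)
    have h1 : Int.sign (q.1 * x ^ 2) = Int.sign q.1 := by
      rw [Int.sign_mul, Int.sign_eq_one_of_pos (a := x ^ 2) (by positivity), mul_one]
    rw [h1, sub_self, mul_zero]
  · rw [if_neg h]

theorem U_fin (H : Wt k) (x m : ℤ) : (Function.support (U k 1 0 x m)).Finite := by
  rcases eq_or_ne m 0 with rfl | hm
  · have : Function.support (U k 1 0 x 0) = ∅ := by
      rw [Set.eq_empty_iff_forall_notMem]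
      intro q hq
      exact hq (U_m_zero x q)
    rw [this]
    exact Set.finite_empty
  set K : ℤ := 4 * m ^ 2 with hK
  set L : ℤ := 2 * |m| + 2 * K * |x| with hL
  set R : ℤ := L ^ 2 + 4 with hR
  refine ((Set.finite_Icc (-K) K).prod ((Set.finite_Icc (-L) L).prod
    (Set.finite_Icc (-R) R))).subset ?_
  intro q hq
  obtain ⟨h0, h1⟩ := U_ne hq
  have hdisc := H.disc q h0
  have hA0 : q.1 ≠ 0 := by
    intro h0
    rw [h0, zero_mul] at h1
    exact lt_irrefl _ h1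
  obtain ⟨h2, h3⟩ := bound hdisc h1
  have hA : |q.1| ≤ K := by
    have := abs_nonneg q.1
    omega
  have hM1 : 1 ≤ |m| := Int.one_le_abs hm
  have hB : |q.2.1| ≤ L := by
    have h4 : |q.2.1 * m| ≤ |2 * q.1 * x + q.2.1 * m| + |2 * q.1 * x| := by
      have h5 : q.2.1 * m = (2 * q.1 * x + q.2.1 * m) - 2 * q.1 * x := by ring
      calc |q.2.1 * m| = |(2 * q.1 * x + q.2.1 * m) - 2 * q.1 * x| := by rw [← h5]
        _ ≤ _ := abs_sub _ _
    have h6 : |2 * q.1 * x| ≤ 2 * K * |x| := by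
      rw [abs_mul, abs_mul]
      have : |(2:ℤ)| = 2 := rfl
      rw [this]
      have := abs_nonneg x
      nlinarith
    have h7 : |q.2.1| ≤ |q.2.1 * m| := by
      rw [abs_mul]
      exact le_mul_of_one_le_right (abs_nonneg _) hM1
    rw [hL]
    linarith
  have hC : |q.2.2| ≤ R := by
    have h4 : 4 * (q.1 * q.2.2) = q.2.1 ^ 2 - 4 := by linarith
    have h5 : 4 * (|q.1| * |q.2.2|) ≤ q.2.1 ^ 2 + 4 := by
      rw [← abs_mul]
      rcases abs_cases (q.1 * q.2.2) with ⟨h6, _⟩ | ⟨h6, _⟩ <;> rw [h6] <;>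
        nlinarith [sq_nonneg q.2.1]
    have h6 : q.2.1 ^ 2 ≤ L ^ 2 := by
      rw [← sq_abs q.2.1]
      exact pow_le_pow_left₀ (abs_nonneg _) hB 2
    have h7 : 1 ≤ |q.1| := Int.one_le_abs hA0
    have h8 : |q.2.2| ≤ |q.1| * |q.2.2| := le_mul_of_one_le_left (abs_nonneg _) h7
    have h9 := abs_nonneg q.2.2
    rw [hR]
    linarith
  refine ⟨?_, ?_, ?_⟩
  · exact abs_le.1 hA
  · exact abs_le.1 hB
  · exact abs_le.1 hC

/-- the termwise identity -/
theorem U_id (H : Wt k) {a b c d : ℤ} (h : a * d - b * (21 * c) = 1) (x m : ℤ)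
    (q : ℤ × ℤ × ℤ) :
    U k 1 0 (a * x + b * m) (21 * c * x + d * m) q =
      U k 1 0 a (21 * c) q + U k 1 0 x m (eqv a b (21 * c) d h q) -
      Z k x m d (-(21 * c)) (eqv a b (21 * c) d h q) := by
  have hc : (21 : ℤ) ∣ 21 * c := ⟨c, rfl⟩
  show U k 1 0 (a * x + b * m) (21 * c * x + d * m) q =
      U k 1 0 a (21 * c) q + U k 1 0 x m (act a b (21 * c) d q) -
      Z k x m d (-(21 * c)) (act a b (21 * c) d q)
  have hk := H.inv h hc q
  have e1 : ev (act a b (21 * c) d q) x m = ev q (a * x + b * m) (21 * c * x + d * m) := by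
    rw [ev_act]
  have e2 : ev (act a b (21 * c) d q) 1 0 = ev q a (21 * c) := by
    rw [ev_act, mul_one, mul_one, mul_zero, mul_zero, add_zero, add_zero]
  have e4 : ev (act a b (21 * c) d q) d (-(21 * c)) = ev q 1 0 := by
    rw [ev_act]
    congr 1
    · linear_combination h
    · ring
  unfold U Z
  rw [e1, e2, e4, hk]
  by_cases h0 : k q = 0
  · rw [h0]
    simp
  · have n1 : ev q 1 0 ≠ 0 := by
      rw [ev10]
      exact fun h1 => h0 (H.ninf q h1)
    have n2 : ev q a (21 * c) ≠ 0 := by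
      rw [← e2, ev10]
      intro h1
      apply h0
      rw [← hk]
      exact H.ninf _ h1
    by_cases h1 : ev q (a * x + b * m) (21 * c * x + d * m) = 0
    · rw [if_neg (fun h2 => h2.2 h1), if_pos ⟨n1, n2⟩, if_neg (fun h2 => h2.2 h1), if_pos h1]
      ring
    · rw [if_pos ⟨n1, h1⟩, if_pos ⟨n1, n2⟩, if_pos ⟨n2, h1⟩, if_neg h1]
      ring

/-- the cocycle relation -/
theorem X_coc (H : Wt k) {a b c d : ℤ} (h : a * d - b * (21 * c) = 1) (x m : ℤ) :
    X k (a * x + b * m) (21 * c * x + d * m) =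
      X k a (21 * c) + X k x m - ∑ᶠ q, Z k x m d (-(21 * c)) q := by
  have f0 := U_fin H (a * x + b * m) (21 * c * x + d * m)
  have f1 := U_fin H a (21 * c)
  have f2 := fin_eqv (U_fin H x m) (eqv a b (21 * c) d h)
  have g1 : (Function.support fun q => U k 1 0 a (21 * c) q +
      U k 1 0 x m (eqv a b (21 * c) d h q)).Finite :=
    (f1.union f2).subset (Function.support_add _ _)
  have f3 : (Function.support fun q => Z k x m d (-(21 * c)) (eqv a b (21 * c) d h q)).Finite := by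
    refine (g1.union f0).subset ?_
    have h1 : (fun q => Z k x m d (-(21 * c)) (eqv a b (21 * c) d h q)) =
        fun q => (U k 1 0 a (21 * c) q + U k 1 0 x m (eqv a b (21 * c) d h q)) -
          U k 1 0 (a * x + b * m) (21 * c * x + d * m) q := by
      funext q
      rw [U_id H h x m q]
      ring
    rw [h1]
    exact Function.support_sub _ _
  unfold X
  rw [finsum_congr (U_id H h x m), finsum_sub_distrib g1 f3, finsum_add_distrib f1 f2,
    sum_eqv, sum_eqv]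

/-- no form vanishes at a cusp -/
def NZ (k : ℤ × ℤ × ℤ → ℤ) (x m : ℤ) : Prop := ∀ q, ev q x m = 0 → k q = 0

theorem Z_zero {x₀ m₀ : ℤ} (h : NZ k x₀ m₀) (x m : ℤ) : ∑ᶠ q, Z k x₀ m₀ x m q = 0 := by
  have h1 : ∀ q, Z k x₀ m₀ x m q = 0 := by
    intro q
    unfold Z
    split_ifs with h2
    · rw [h q h2, zero_mul]
    · rfl
  rw [finsum_congr h1, finsum_zero]

theorem NZ_inf (H : Wt k) {a b c d : ℤ} (h : a * d - b * (21 * c) = 1) : NZ k a (21 * c) := by
  intro q hq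
  have hc : (21 : ℤ) ∣ 21 * c := ⟨c, rfl⟩
  rw [← H.inv h hc q]
  apply H.ninf
  rw [← ev10, ev_act, mul_one, mul_one, mul_zero, mul_zero, add_zero, add_zero]
  exact hq

/-- the homomorphism property -/
theorem X_hom (H : Wt k) {a b c d a' b' c' d' : ℤ} (h : a * d - b * (21 * c) = 1)
    (h' : a' * d' - b' * (21 * c') = 1) :
    X k (a * a' + b * (21 * c')) (21 * c * a' + d * (21 * c')) =
      X k a (21 * c) + X k a' (21 * c') := by
  rw [X_coc H h a' (21 * c'), Z_zero (NZ_inf H h'), sub_zero]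

theorem X_neg_neg (x m : ℤ) : X k (-x) (-m) = X k x m := by
  unfold X
  apply finsum_congr
  intro q
  unfold U
  rw [ev_neg_neg]

/-- the reflection -/
def refl : (ℤ × ℤ × ℤ) ≃ (ℤ × ℤ × ℤ) where
  toFun q := (-q.1, q.2.1, -q.2.2)
  invFun q := (-q.1, q.2.1, -q.2.2)
  left_inv q := by simp
  right_inv q := by simp

theorem ev_refl (q : ℤ × ℤ × ℤ) (x m : ℤ) : ev (refl q) x m = -ev q (-x) m := by
  obtain ⟨A, B, C⟩ := q
  have hr : refl (A, B, C) = (-A, B, -C) := rfl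
  rw [hr]
  unfold ev
  ring

theorem X_neg (H : Wt k) (x m : ℤ) : X k (-x) m = -X k x m := by
  unfold X
  have h1 : ∀ q, U k 1 0 (-x) m q = -U k 1 0 x m (refl q) := by
    intro q
    have hk : k (refl q) = k q := H.par q.1 q.2.1 q.2.2
    unfold U
    have e1 : ev (refl q) x m = -ev q (-x) m := ev_refl q x m
    have e2 : ev (refl q) 1 0 = -ev q 1 0 := by
      rw [ev_refl, ← ev_neg_neg q (-1) 0, neg_neg, neg_zero]
    rw [e1, e2, hk]
    simp only [ne_eq, neg_eq_zero, Int.sign_neg]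
    split_ifs with h
    · ring
    · ring
  rw [finsum_congr h1, finsum_neg_distrib, sum_eqv]

theorem X_neg' (H : Wt k) (x m : ℤ) : X k x (-m) = -X k x m := by
  rw [← X_neg_neg, neg_neg, X_neg H]

theorem X_inf (x : ℤ) : X k x 0 = 0 := by
  unfold X
  rw [finsum_congr (U_m_zero x), finsum_zero]

theorem X_zero (H : Wt k) (m : ℤ) : X k 0 m = 0 := by
  have h := X_neg H 0 m
  rw [neg_zero] at h
  omega

/-! ### the two weights -/

/-- the conditions at `3` -/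
def C3 (q : ℤ × ℤ × ℤ) : Prop :=
  q.2.1 ^ 2 - 4 * q.1 * q.2.2 = 4 ∧ (3 : ℤ) ∣ q.1 ∧ q.2.1 % 6 = 2

open Classical in
/-- the weight of the forms joining the classes of `0` and `1 / 3` -/
def kA (q : ℤ × ℤ × ℤ) : ℤ := if C3 q ∧ ¬ (7 : ℤ) ∣ q.1 then kq q else 0

open Classical in
/-- the weight of the forms joining the classes of `1 / 3` and `1 / 7` -/
def kP (q : ℤ × ℤ × ℤ) : ℤ := if C3 q ∧ (7 : ℤ) ∣ q.1 ∧ (7 : ℤ) ∣ q.2.1 + 2 then kq q else 0

theorem disc_act {a b c d : ℤ} (h : a * d - b * c = 1) {q : ℤ × ℤ × ℤ}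
    (hq : q.2.1 ^ 2 - 4 * q.1 * q.2.2 = 4) :
    (act a b c d q).2.1 ^ 2 - 4 * (act a b c d q).1 * (act a b c d q).2.2 = 4 := by
  obtain ⟨A, B, C⟩ := q
  simp only at hq
  unfold act
  simp only
  linear_combination (a * d - b * c) ^ 2 * hq + 4 * (a * d - b * c + 1) * h

theorem C3_act {a b c d : ℤ} (h : a * d - b * c = 1) (hc : (21 : ℤ) ∣ c) {q : ℤ × ℤ × ℤ}
    (hq : C3 q) : C3 (act a b c d q) := by
  refine ⟨disc_act h hq.1, ?_, ?_⟩
  · obtain ⟨A, B, C⟩ := q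
    obtain ⟨c1, rfl⟩ := hc
    obtain ⟨h1, ⟨A1, h2⟩, h3⟩ := hq
    simp only at h1 h2 h3
    unfold act
    simp only
    exact ⟨A1 * a ^ 2 + B * a * c1 * 7 + C * c1 ^ 2 * 147, by rw [h2]; ring⟩
  · obtain ⟨A, B, C⟩ := q
    obtain ⟨c1, rfl⟩ := hc
    obtain ⟨h1, ⟨A1, h2⟩, h3⟩ := hq
    simp only at h1 h2 h3
    unfold act
    simp only
    have h4 : 2 * A * a * b + B * (a * d + b * (21 * c1)) + 2 * C * (21 * c1) * d =
        B + 6 * (A1 * a * b + 7 * B * b * c1 + 7 * C * c1 * d) := by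
      rw [h2]; linear_combination B * h
    rw [h4]
    omega

theorem C3_iff {a b c d : ℤ} (h : a * d - b * c = 1) (hc : (21 : ℤ) ∣ c) {q : ℤ × ℤ × ℤ} :
    C3 (act a b c d q) ↔ C3 q := by
  refine ⟨fun hq => ?_, C3_act h hc⟩
  have h' : d * a - (-b) * (-c) = 1 := by linear_combination h
  have h1 := C3_act h' (hc.neg_right) hq
  rwa [act_inv h] at h1

theorem d7_act {a b c d : ℤ} (hc : (21 : ℤ) ∣ c) {q : ℤ × ℤ × ℤ}
    (hq : (7 : ℤ) ∣ q.1) : (7 : ℤ) ∣ (act a b c d q).1 := by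
  obtain ⟨A, B, C⟩ := q
  obtain ⟨c1, rfl⟩ := hc
  obtain ⟨A1, h2⟩ := hq
  simp only at h2
  unfold act
  simp only
  exact ⟨A1 * a ^ 2 + B * a * c1 * 3 + C * c1 ^ 2 * 63, by rw [h2]; ring⟩

theorem d7_iff {a b c d : ℤ} (h : a * d - b * c = 1) (hc : (21 : ℤ) ∣ c) {q : ℤ × ℤ × ℤ} :
    (7 : ℤ) ∣ (act a b c d q).1 ↔ (7 : ℤ) ∣ q.1 := by
  refine ⟨fun hq => ?_, d7_act hc⟩
  have h1 := d7_act (a := d) (b := -b) (c := -c) (d := a) (hc.neg_right) hq
  rwa [act_inv h] at h1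

theorem e7_act {a b c d : ℤ} (h : a * d - b * c = 1) (hc : (21 : ℤ) ∣ c) {q : ℤ × ℤ × ℤ}
    (hq : (7 : ℤ) ∣ q.1 ∧ (7 : ℤ) ∣ q.2.1 + 2) :
    (7 : ℤ) ∣ (act a b c d q).1 ∧ (7 : ℤ) ∣ (act a b c d q).2.1 + 2 := by
  refine ⟨d7_act hc hq.1, ?_⟩
  obtain ⟨A, B, C⟩ := q
  obtain ⟨c1, rfl⟩ := hc
  obtain ⟨⟨A1, h2⟩, ⟨B1, h3⟩⟩ := hq
  simp only at h2 h3
  unfold act
  simp only
  refine ⟨2 * A1 * a * b + 6 * B * b * c1 + 6 * C * c1 * d + B1, ?_⟩
  rw [h2]
  linear_combination B * h + h3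

theorem e7_iff {a b c d : ℤ} (h : a * d - b * c = 1) (hc : (21 : ℤ) ∣ c) {q : ℤ × ℤ × ℤ} :
    ((7 : ℤ) ∣ (act a b c d q).1 ∧ (7 : ℤ) ∣ (act a b c d q).2.1 + 2) ↔
      ((7 : ℤ) ∣ q.1 ∧ (7 : ℤ) ∣ q.2.1 + 2) := by
  refine ⟨fun hq => ?_, e7_act h hc⟩
  have h' : d * a - (-b) * (-c) = 1 := by linear_combination h
  have h1 := e7_act h' (hc.neg_right) hq
  rwa [act_inv h] at h1

theorem kq_act {a b c d : ℤ} (h : a * d - b * c = 1) {q : ℤ × ℤ × ℤ} (hq : C3 q) :
    kq (act a b c d q) = kq q := by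
  obtain ⟨A, B, C⟩ := q
  have h1 := hq.2.2
  simp only at h1
  rw [kq_eq, kq_eq]
  unfold act
  simp only
  have e1 : (B : ZMod 2) = 0 := by
    rw [ZMod.intCast_zmod_eq_zero_iff_dvd]
    norm_num
    omega
  have e2 : (a : ZMod 2) * d - b * c = 1 := by
    have := congrArg (fun z : ℤ => (z : ZMod 2)) h
    push_cast at this
    exact this
  have e3 := dec2 A C a b c d e2
  push_cast
  rw [e1]
  exact e3

theorem kq_neg (A B C : ℤ) : kq (-A, B, -C) = kq (A, B, C) := by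
  unfold kq
  simp only [dvd_neg]

theorem C3_neg (A B C : ℤ) : C3 (-A, B, -C) ↔ C3 (A, B, C) := by
  unfold C3
  simp only
  constructor
  · rintro ⟨h1, h2, h3⟩
    exact ⟨by linear_combination h1, (dvd_neg).1 h2, h3⟩
  · rintro ⟨h1, h2, h3⟩
    exact ⟨by linear_combination h1, (dvd_neg).2 h2, h3⟩

theorem ite_eq_of {P Q : Prop} {_ : Decidable P} {_ : Decidable Q} {x y : ℤ} (h : P ↔ Q)
    (hxy : Q → x = y) : (if P then x else 0) = if Q then y else 0 := by
  by_cases hq : Q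
  · rw [if_pos (h.2 hq), if_pos hq, hxy hq]
  · rw [if_neg (fun hp => hq (h.1 hp)), if_neg hq]

theorem wtA : Wt kA where
  disc q h := by
    unfold kA at h
    by_cases h1 : C3 q ∧ ¬ (7 : ℤ) ∣ q.1
    · exact h1.1.1
    · rw [if_neg h1] at h
      exact absurd rfl h
  inv := by
    intro a b c d h hc q
    unfold kA
    exact ite_eq_of (and_congr (C3_iff h hc) (not_congr (d7_iff h hc))) (fun h1 => kq_act h h1.1)
  ninf q h := by
    unfold kA
    rw [if_neg]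
    rintro ⟨-, h2⟩
    rw [h] at h2
    exact h2 (dvd_zero _)
  par A B C := by
    unfold kA
    exact ite_eq_of (and_congr (C3_neg A B C) (not_congr dvd_neg)) (fun _ => kq_neg A B C)

theorem wtP : Wt kP where
  disc q h := by
    unfold kP at h
    by_cases h1 : C3 q ∧ (7 : ℤ) ∣ q.1 ∧ (7 : ℤ) ∣ q.2.1 + 2
    · exact h1.1.1
    · rw [if_neg h1] at h
      exact absurd rfl h
  inv := by
    intro a b c d h hc q
    unfold kP
    exact ite_eq_of (and_congr (C3_iff h hc) (e7_iff h hc)) (fun h1 => kq_act h h1.1)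
  ninf q h := by
    unfold kP
    rw [if_neg]
    rintro ⟨⟨h1, -, h3⟩, -, h5⟩
    rw [h] at h1
    have h6 : (q.2.1 - 2) * (q.2.1 + 2) = 0 := by linear_combination h1
    rcases mul_eq_zero.1 h6 with h7 | h7
    · have : q.2.1 = 2 := by omega
      rw [this] at h5
      norm_num at h5
    · omega
  par A B C := by
    unfold kP
    exact ite_eq_of (and_congr (C3_neg A B C) (and_congr_left' dvd_neg)) (fun _ => kq_neg A B C)

end

end Pool.Agent.N975.S21
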