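import Pool.Agent.N975.S21.Core

/-!
# The forms vanishing at the cusps `0` and `1 / 3`, and special values
-/

set_option autoImplicit false

namespace Pool.Agent.N975.S21

open Pool.Agent.N972.P17 (sg)
open Pool.Agent.N975.Sym (ev kq act act_inv eqv ev_act kq_eq dec2 ev10 key bound)
open Pool.Agent.N975.S17 (sign_cases fin_eqv sum_eqv finsum_family finite_family ev_neg_neg ev01
  w e e_fin e_sum sign_mul_pos)

noncomputable section

/-! ### the class of zero -/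

theorem kA_zero (α : ℤ) : kA (3 * α, 2, 0) = if (7 : ℤ) ∣ α then 0 else w α := by
  have h1 : C3 (3 * α, 2, 0) := ⟨by norm_num, ⟨α, rfl⟩, by norm_num⟩
  have h2 : (7 : ℤ) ∣ 3 * α ↔ (7 : ℤ) ∣ α := by omega
  have h3 : kq (3 * α, 2, 0) = w α := by
    unfold kq w
    have h4 : ((2 : ℤ) ∣ 3 * α ∧ (2 : ℤ) ∣ 0) ↔ (2 : ℤ) ∣ α := by
      constructor
      · rintro ⟨h4, -⟩
        omega
      · intro h4
        exact ⟨by omega, dvd_zero _⟩
    simp only [h4]
  unfold kA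
  by_cases h : (7 : ℤ) ∣ α
  · rw [if_pos h, if_neg]
    rintro ⟨-, h4⟩
    exact h4 (h2.2 h)
  · rw [if_neg h, if_pos ⟨h1, fun h4 => h (h2.1 h4)⟩, h3]

theorem Z0_range {x m : ℤ} (q : ℤ × ℤ × ℤ) (h : Z kA 0 1 x m q ≠ 0) :
    q ∈ Set.range (fun α : ℤ => ((3 * α : ℤ), (2 : ℤ), (0 : ℤ))) := by
  unfold Z at h
  by_cases h0 : ev q 0 1 = 0
  · rw [if_pos h0] at h
    have hk : kA q ≠ 0 := fun h1 => h (by rw [h1, zero_mul])
    unfold kA at hk
    by_cases h1 : C3 q ∧ ¬ (7 : ℤ) ∣ q.1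
    · obtain ⟨A, B, C⟩ := q
      obtain ⟨⟨h2, ⟨α, h3⟩, h4⟩, -⟩ := h1
      rw [ev01] at h0
      simp only at h0 h2 h3 h4
      subst h0
      have h5 : (B - 2) * (B + 2) = 0 := by linear_combination h2
      rcases mul_eq_zero.1 h5 with h6 | h6
      · have : B = 2 := by omega
        subst this
        exact ⟨α, by rw [h3]⟩
      · omega
    · rw [if_neg h1] at hk
      exact absurd rfl hk
  · rw [if_neg h0] at h
    exact absurd rfl h

theorem Z0_inj : Function.Injective (fun α : ℤ => ((3 * α : ℤ), (2 : ℤ), (0 : ℤ))) := by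
  intro C C' h
  simp only [Prod.mk.injEq] at h
  omega

theorem Z0_sum (x m : ℤ) : ∑ᶠ q, Z kA 0 1 x m q = ∑ᶠ α : ℤ,
    (if (7 : ℤ) ∣ α then 0 else w α) * (Int.sign (x * (3 * α * x + 2 * m)) - Int.sign α) := by
  rw [finsum_family Z0_inj Z0_range]
  apply finsum_congr
  intro α
  unfold Z
  rw [if_pos (by rw [ev01]), kA_zero]
  have h1 : ev (3 * α, 2, 0) x m = x * (3 * α * x + 2 * m) := by unfold ev; ring
  have h2 : ev (3 * α, 2, 0) 1 0 = 3 * α := by unfold ev; ring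
  rw [h1, h2, sign_mul_pos (by norm_num : (0 : ℤ) < 3)]

theorem Z0_V : ∑ᶠ q, Z kA 0 1 1 (-21) q = 0 := by
  rw [Z0_sum]
  have hs : Function.support (fun α : ℤ => (if (7 : ℤ) ∣ α then 0 else w α) *
      (Int.sign (1 * (3 * α * 1 + 2 * (-21))) - Int.sign α)) ⊆
      ((Finset.Icc 0 14 : Finset ℤ) : Set ℤ) := by
    intro α hα
    by_contra h
    apply hα
    rw [Finset.coe_Icc, Set.mem_Icc, not_and_or, not_le, not_le] at h
    rcases h with h | h
    · simp only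
      rw [Int.sign_eq_neg_one_of_neg (a := α) h, Int.sign_eq_neg_one_of_neg (by omega), sub_self,
        mul_zero]
    · simp only
      rw [Int.sign_eq_one_of_pos (a := α) (by omega), Int.sign_eq_one_of_pos (by omega), sub_self,
        mul_zero]
  rw [finsum_eq_sum_of_support_subset _ hs]
  rfl

theorem Z0_8 : ∑ᶠ q, Z kA 0 1 8 (-21) q = -2 := by
  rw [Z0_sum]
  have hs : Function.support (fun α : ℤ => (if (7 : ℤ) ∣ α then 0 else w α) *
      (Int.sign (8 * (3 * α * 8 + 2 * (-21))) - Int.sign α)) ⊆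
      ((Finset.Icc 0 1 : Finset ℤ) : Set ℤ) := by
    intro α hα
    by_contra h
    apply hα
    rw [Finset.coe_Icc, Set.mem_Icc, not_and_or, not_le, not_le] at h
    rcases h with h | h
    · simp only
      rw [Int.sign_eq_neg_one_of_neg (a := α) h, Int.sign_eq_neg_one_of_neg (by omega), sub_self,
        mul_zero]
    · simp only
      rw [Int.sign_eq_one_of_pos (a := α) (by omega), Int.sign_eq_one_of_pos (by omega), sub_self,
        mul_zero]
  rw [finsum_eq_sum_of_support_subset _ hs]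
  rfl

theorem NZ0 : NZ kP 0 1 := by
  intro q h0
  unfold kP
  rw [if_neg]
  rintro ⟨⟨h2, ⟨α, h3⟩, h4⟩, -, h6⟩
  rw [ev01] at h0
  rw [h0] at h2
  have h5 : (q.2.1 - 2) * (q.2.1 + 2) = 0 := by linear_combination h2
  rcases mul_eq_zero.1 h5 with h7 | h7 <;> omega

theorem NZ7 : NZ kA 1 7 := by
  intro q h0
  unfold kA
  rw [if_neg]
  rintro ⟨-, h6⟩
  apply h6
  unfold ev at h0
  exact ⟨-(q.2.1 + 7 * q.2.2), by linear_combination h0⟩

/-! ### the class of one third -/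

/-- the forms vanishing at one third -/
def q3 (β : ℤ) : ℤ × ℤ × ℤ := (-(3 * (3 * β + 2)), 6 * β + 2, -β)

theorem q3_C3 (β : ℤ) : C3 (q3 β) := by
  unfold q3
  refine ⟨?_, ⟨-(3 * β + 2), ?_⟩, ?_⟩
  · simp only
    ring
  · simp only
    ring
  · simp only
    omega

theorem kq_q3 (β : ℤ) : kq (q3 β) = w β := by
  unfold kq w q3
  have h4 : ((2 : ℤ) ∣ -(3 * (3 * β + 2)) ∧ (2 : ℤ) ∣ -β) ↔ (2 : ℤ) ∣ β := by omega
  simp only [h4]

theorem kA_q3 (β : ℤ) : kA (q3 β) = if (7 : ℤ) ∣ β - 4 then 0 else w β := by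
  unfold kA
  have h2 : (7 : ℤ) ∣ (q3 β).1 ↔ (7 : ℤ) ∣ β - 4 := by
    unfold q3
    simp only
    omega
  by_cases h : (7 : ℤ) ∣ β - 4
  · rw [if_pos h, if_neg]
    rintro ⟨-, h4⟩
    exact h4 (h2.2 h)
  · rw [if_neg h, if_pos ⟨q3_C3 β, fun h4 => h (h2.1 h4)⟩, kq_q3]

theorem kP_q3 (β : ℤ) : kP (q3 β) = if (7 : ℤ) ∣ β - 4 then w β else 0 := by
  unfold kP
  have h2 : ((7 : ℤ) ∣ (q3 β).1 ∧ (7 : ℤ) ∣ (q3 β).2.1 + 2) ↔ (7 : ℤ) ∣ β - 4 := by
    unfold q3
    simp only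
    omega
  by_cases h : (7 : ℤ) ∣ β - 4
  · rw [if_pos h, if_pos ⟨q3_C3 β, h2.2 h⟩, kq_q3]
  · rw [if_neg h, if_neg]
    rintro ⟨-, h4⟩
    exact h (h2.1 h4)

theorem C3_q3 {q : ℤ × ℤ × ℤ} (hq : C3 q) (h0 : ev q 1 3 = 0) : q ∈ Set.range q3 := by
  obtain ⟨A, B, C⟩ := q
  obtain ⟨h1, ⟨A1, h2⟩, h3⟩ := hq
  unfold ev at h0
  simp only at h0 h1 h2 h3
  subst h2
  have e1 : B = -3 * C - A1 := by linarith
  subst e1
  have h4 : (3 * C - A1 - 2) * (3 * C - A1 + 2) = 0 := by linear_combination h1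
  rcases mul_eq_zero.1 h4 with h5 | h5
  · -- `A1 = 3 C - 2`
    have e2 : A1 = 3 * C - 2 := by linarith
    subst e2
    refine ⟨-C, ?_⟩
    unfold q3
    simp only [Prod.mk.injEq]
    refine ⟨by ring, by ring, by ring⟩
  · exfalso
    have e2 : A1 = 3 * C + 2 := by linarith
    subst e2
    omega

theorem q3_inj : Function.Injective q3 := by
  intro C C' h
  unfold q3 at h
  simp only [Prod.mk.injEq] at h
  omega

theorem Z3_range {k : ℤ × ℤ × ℤ → ℤ} (hk : ∀ q, k q ≠ 0 → C3 q) {x m : ℤ} (q : ℤ × ℤ × ℤ)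
    (h : Z k 1 3 x m q ≠ 0) : q ∈ Set.range q3 := by
  unfold Z at h
  by_cases h0 : ev q 1 3 = 0
  · rw [if_pos h0] at h
    exact C3_q3 (hk q fun h1 => h (by rw [h1, zero_mul])) h0
  · rw [if_neg h0] at h
    exact absurd rfl h

theorem kA_C3 (q : ℤ × ℤ × ℤ) (h : kA q ≠ 0) : C3 q := by
  unfold kA at h
  by_cases h1 : C3 q ∧ ¬ (7 : ℤ) ∣ q.1
  · exact h1.1
  · rw [if_neg h1] at h
    exact absurd rfl h

theorem kP_C3 (q : ℤ × ℤ × ℤ) (h : kP q ≠ 0) : C3 q := by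
  unfold kP at h
  by_cases h1 : C3 q ∧ (7 : ℤ) ∣ q.1 ∧ (7 : ℤ) ∣ q.2.1 + 2
  · exact h1.1
  · rw [if_neg h1] at h
    exact absurd rfl h

theorem ev_q3 (β x m : ℤ) : ev (q3 β) x m = (3 * x - m) * (-(2 * x + β * (3 * x - m))) := by
  unfold ev q3
  simp only
  ring

theorem Z3_sum {k : ℤ × ℤ × ℤ → ℤ} (hk : ∀ q, k q ≠ 0 → C3 q) {x m : ℤ} (hm : 0 < 3 * x - m) :
    ∑ᶠ q, Z k 1 3 x m q = ∑ᶠ β : ℤ, k (q3 β) *
      (Int.sign (2 * 1 + β * 3) - Int.sign (2 * x + β * (3 * x - m))) := by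
  rw [finsum_family q3_inj (Z3_range hk)]
  apply finsum_congr
  intro β
  unfold Z
  rw [if_pos (by rw [ev_q3]; ring), ev_q3, ev_q3, sign_mul_pos hm]
  have e1 : (3 * 1 - 0 : ℤ) * (-(2 * 1 + β * (3 * 1 - 0))) = 3 * (-(2 * 1 + β * 3)) := by ring
  rw [e1, sign_mul_pos (by norm_num : (0 : ℤ) < 3), Int.sign_neg, Int.sign_neg]
  ring

theorem sg13 : sg 1 3 = 1 := rfl

/-- the sum over the forms with `7 ∤ β - 4` and all forms -/
theorem sum1 {x M : ℤ} (hM : 0 < M) :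
    ∑ᶠ β : ℤ, w β * (Int.sign (2 * 1 + β * 3) - Int.sign (2 * x + β * M)) = sg x M - 1 := by
  have h1 := e_sum (x := 1) (M := 3) (y := x) (N := M) (by norm_num) hM
  rw [sg13] at h1
  rw [← h1]
  apply finsum_congr
  intro β
  unfold e
  ring

theorem fin1 {x M : ℤ} (hM : 0 < M) : (Function.support fun β : ℤ =>
    w β * (Int.sign (2 * 1 + β * 3) - Int.sign (2 * x + β * M))).Finite := by
  have h1 := e_fin (x := 1) (M := 3) (y := x) (N := M) (by norm_num) hM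
  have h2 : (fun β : ℤ => w β * (Int.sign (2 * 1 + β * 3) - Int.sign (2 * x + β * M))) =
      fun C => e 1 3 C - e x M C := by
    funext β
    unfold e
    ring
  rw [h2]
  exact h1

/-- sums over an arithmetic progression -/
theorem finsum_prog {f : ℤ → ℤ} {i : ℤ → ℤ} (hi : Function.Injective i)
    (hf : ∀ q, f q ≠ 0 → q ∈ Set.range i) : ∑ᶠ q, f q = ∑ᶠ C, f (i C) := by
  rw [← finsum_mem_range hi, finsum_mem_def]
  apply finsum_congr
  intro q
  by_cases hq : q ∈ Set.range i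
  · rw [Set.indicator_of_mem hq]
  · rw [Set.indicator_of_notMem hq]
    by_contra h
    exact hq (hf q h)

theorem sum2 {x M j : ℤ} (hM : 0 < M) (hj : x + 2 * M = 7 * j) :
    ∑ᶠ β : ℤ, (if (7 : ℤ) ∣ β - 4 then w β else 0) *
      (Int.sign (2 * 1 + β * 3) - Int.sign (2 * x + β * M)) = sg j M - 1 := by
  have hi : Function.Injective (fun t : ℤ => 4 + 7 * t) := by
    intro t t' h
    simp only at h
    omega
  rw [finsum_prog hi, ← sum1 hM]
  · apply finsum_congr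
    intro t
    have e0 : (7 : ℤ) ∣ 4 + 7 * t - 4 := ⟨t, by ring⟩
    have e1 : w (4 + 7 * t) = w t := by
      unfold w
      have : (2 : ℤ) ∣ 4 + 7 * t ↔ (2 : ℤ) ∣ t := by omega
      simp only [this]
    have e2 : 2 * 1 + (4 + 7 * t) * 3 = 7 * (2 * 1 + t * 3) := by ring
    have e3 : 2 * x + (4 + 7 * t) * M = 7 * (2 * j + t * M) := by linear_combination 2 * hj
    rw [if_pos e0, e1, e2, e3, sign_mul_pos (by norm_num), sign_mul_pos (by norm_num)]
  · intro β h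
    by_cases h1 : (7 : ℤ) ∣ β - 4
    · obtain ⟨t, ht⟩ := h1
      exact ⟨t, by simp only; omega⟩
    · rw [if_neg h1, zero_mul] at h
      exact absurd rfl h

theorem fin2 {x M : ℤ} (hM : 0 < M) : (Function.support fun β : ℤ =>
    (if (7 : ℤ) ∣ β - 4 then w β else 0) *
      (Int.sign (2 * 1 + β * 3) - Int.sign (2 * x + β * M))).Finite := by
  refine (fin1 (x := x) hM).subset ?_
  intro β hβ h
  apply hβ
  simp only at h ⊢
  split_ifs
  · exact h
  · rw [zero_mul]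

/-- the sum over the forms vanishing at one third -/
theorem Z3P {x m j : ℤ} (hm : 0 < 3 * x - m) (hj : x + 2 * (3 * x - m) = 7 * j) :
    ∑ᶠ q, Z kP 1 3 x m q = sg j (3 * x - m) - 1 := by
  rw [Z3_sum kP_C3 hm, ← sum2 hm hj]
  apply finsum_congr
  intro β
  rw [kP_q3]

/-- the sum over the forms vanishing at one third -/
theorem Z3A {x m j : ℤ} (hm : 0 < 3 * x - m) (hj : x + 2 * (3 * x - m) = 7 * j) :
    ∑ᶠ q, Z kA 1 3 x m q = sg x (3 * x - m) - sg j (3 * x - m) := by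
  have h1 : sg x (3 * x - m) - sg j (3 * x - m) =
      (sg x (3 * x - m) - 1) - (sg j (3 * x - m) - 1) := by ring
  rw [Z3_sum kA_C3 hm, h1, ← sum1 hm, ← sum2 hm hj, ← finsum_sub_distrib (fin1 hm) (fin2 hm)]
  apply finsum_congr
  intro β
  rw [kA_q3]
  split_ifs
  · ring
  · ring

/-! ### the parabolic elements -/

theorem XA_V : X kA 1 21 = 0 := by
  have h := X_coc wtA (a := 1) (b := 0) (c := 1) (d := 1) (by norm_num) 0 1
  norm_num at h
  rw [Z0_V] at h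
  linarith

theorem XP_V : X kP 1 21 = 0 := by
  have h := X_coc wtP (a := 1) (b := 0) (c := 1) (d := 1) (by norm_num) 0 1
  norm_num at h
  rw [Z_zero NZ0] at h
  linarith

theorem XA_P : X kA (-20) (-63) = 0 := by
  have h := X_coc wtA (a := -20) (b := 7) (c := -3) (d := 22) (by norm_num) 1 3
  norm_num at h
  rw [Z3A (j := 4) (by norm_num) (by norm_num)] at h
  have h1 : sg 22 (3 * 22 - 63) = 1 := rfl
  have h2 : sg 4 (3 * 22 - 63) = 1 := rfl
  rw [h1, h2] at h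
  linarith

theorem XP_P : X kP (-20) (-63) = 0 := by
  have h := X_coc wtP (a := -20) (b := 7) (c := -3) (d := 22) (by norm_num) 1 3
  norm_num at h
  rw [Z3P (j := 4) (by norm_num) (by norm_num)] at h
  have h2 : sg 4 (3 * 22 - 63) = 1 := rfl
  rw [h2] at h
  linarith

theorem XA_8 : X kA 8 21 = X kA 3 8 - 2 := by
  have h := X_coc wtA (a := 8) (b := 3) (c := 1) (d := 8) (by norm_num) 0 1
  norm_num at h
  rw [Z0_8, X_zero wtA] at h
  linarith

theorem XP_8 : X kP 8 21 = X kP 3 8 := by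
  have h := X_coc wtP (a := 8) (b := 3) (c := 1) (d := 8) (by norm_num) 0 1
  norm_num at h
  rw [Z_zero NZ0, X_zero wtP] at h
  linarith

end

end Pool.Agent.N975.S21
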