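import Pool.Agent.N975.S21.Str

/-!
# The counting functions of `N877/P21/Defs` and the two special values
-/

set_option autoImplicit false

namespace Pool.Agent.N975.S21

open Pool.Agent.N877.P21 (Fm cQ Fp FmA cA FA)
open Pool.Agent.N975.Sym (ev kq act act_inv eqv ev_act kq_eq dec2 ev10 key bound)
open Pool.Agent.N975.S17 (sign_cases fin_eqv sum_eqv finsum_family finite_family ev_neg_neg ev01)

noncomputable section

variable {k : ℤ × ℤ × ℤ → ℤ}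

theorem ev_neg (q : ℤ × ℤ × ℤ) (x M : ℤ) : ev (-q) x M = - ev q x M := by
  unfold ev
  simp only [Prod.fst_neg, Prod.snd_neg]
  ring

/-- the part with positive leading coefficient -/
def gp (k : ℤ × ℤ × ℤ → ℤ) (x m : ℤ) (q : ℤ × ℤ × ℤ) : ℤ :=
  if 0 < q.1 ∧ ev q x m < 0 then k q else 0

/-- the part with negative leading coefficient -/
def gm (k : ℤ × ℤ × ℤ → ℤ) (x m : ℤ) (q : ℤ × ℤ × ℤ) : ℤ :=
  if 0 < q.1 ∧ ev q x m < 0 then k (-q) else 0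

theorem U_split (_ : Wt k) (x m : ℤ) (q : ℤ × ℤ × ℤ) :
    U k 1 0 x m q = 2 * gp k x m q - 2 * gm k x m (-q) := by
  unfold U gp gm
  rw [neg_neg, ev_neg, ev10]
  simp only [Prod.fst_neg]
  by_cases hq : q.1 ≠ 0 ∧ ev q x m ≠ 0
  · rw [if_pos hq]
    obtain ⟨h2, h3⟩ := hq
    rcases lt_or_gt_of_ne h2 with h4 | h4
    · have n1 : ¬ (0 < q.1 ∧ ev q x m < 0) := fun h => by linarith [h.1]
      rw [if_neg n1, Int.sign_eq_neg_one_of_neg h4]
      rcases lt_or_gt_of_ne h3 with h5 | h5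
      · have n2 : ¬ (0 < -q.1 ∧ -ev q x m < 0) := fun h => by linarith [h.2]
        rw [if_neg n2, Int.sign_eq_neg_one_of_neg h5]
        ring
      · have n2 : (0 < -q.1 ∧ -ev q x m < 0) := ⟨by linarith, by linarith⟩
        rw [if_pos n2, Int.sign_eq_one_of_pos h5]
        ring
    · have n1 : ¬ (0 < -q.1 ∧ -ev q x m < 0) := fun h => by linarith [h.1]
      rw [if_neg n1, Int.sign_eq_one_of_pos h4]
      rcases lt_or_gt_of_ne h3 with h5 | h5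
      · have n2 : (0 < q.1 ∧ ev q x m < 0) := ⟨h4, h5⟩
        rw [if_pos n2, Int.sign_eq_neg_one_of_neg h5]
        ring
      · have n2 : ¬ (0 < q.1 ∧ ev q x m < 0) := fun h => by linarith [h.2]
        rw [if_neg n2, Int.sign_eq_one_of_pos h5]
        ring
  · have n1 : ¬ (0 < q.1 ∧ ev q x m < 0) := fun h => hq ⟨h.1.ne', h.2.ne⟩
    have n2 : ¬ (0 < -q.1 ∧ -ev q x m < 0) := fun h =>
      hq ⟨by have := h.1; omega, by have := h.2; omega⟩
    rw [if_neg hq, if_neg n1, if_neg n2]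
    ring

theorem g_disj {x m : ℤ} (q : ℤ × ℤ × ℤ) : gp k x m q = 0 ∨ gm k x m (-q) = 0 := by
  by_contra h
  rw [not_or] at h
  obtain ⟨h1, h2⟩ := h
  have h5 : 0 < q.1 ∧ ev q x m < 0 := by
    unfold gp at h1
    by_contra h6
    rw [if_neg h6] at h1
    exact h1 rfl
  have h4 : 0 < (-q).1 ∧ ev (-q) x m < 0 := by
    unfold gm at h2
    by_contra h6
    rw [if_neg h6] at h2
    exact h2 rfl
  have h7 := h4.1
  rw [Prod.fst_neg] at h7
  linarith [h5.1]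

theorem gp_fin (H : Wt k) (x m : ℤ) : (Function.support (gp k x m)).Finite := by
  refine (U_fin H x m).subset ?_
  intro q hq
  have h1 : gp k x m q ≠ 0 := hq
  rcases g_disj (k := k) (x := x) (m := m) q with h2 | h2
  · exact absurd h2 h1
  · rw [Function.mem_support, U_split H, h2]
    intro h3
    apply h1
    linarith

theorem gm_fin' (H : Wt k) (x m : ℤ) : (Function.support (fun q => gm k x m (-q))).Finite := by
  refine (U_fin H x m).subset ?_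
  intro q hq
  have h1 : gm k x m (-q) ≠ 0 := hq
  rcases g_disj (k := k) (x := x) (m := m) q with h2 | h2
  · rw [Function.mem_support, U_split H, h2]
    intro h3
    apply h1
    linarith
  · exact absurd h2 h1

theorem gm_fin (H : Wt k) (x m : ℤ) : (Function.support (gm k x m)).Finite := by
  have h := (gm_fin' H x m).preimage ((neg_injective (G := ℤ × ℤ × ℤ)).injOn)
  refine h.subset ?_
  intro q hq
  show gm k x m (- -q) ≠ 0
  rw [neg_neg]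
  exact hq

theorem X_eq (H : Wt k) (x m : ℤ) : X k x m = 2 * ∑ᶠ q : ℤ × ℤ × ℤ,
    if 0 < q.1 ∧ ev q x m < 0 then k q - k (-q) else 0 := by
  have h2 : ∑ᶠ q, gm k x m (-q) = ∑ᶠ q, gm k x m q :=
    finsum_comp_equiv (Equiv.neg (ℤ × ℤ × ℤ)) (f := gm k x m)
  have h3 : X k x m = 2 * (∑ᶠ q, gp k x m q) - 2 * (∑ᶠ q, gm k x m (-q)) := by
    unfold X
    rw [finsum_congr (U_split H x m), finsum_sub_distrib, mul_finsum, mul_finsum]
    · exact (gp_fin H x m).subset (Function.support_mul_subset_right _ _)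
    · exact (gm_fin' H x m).subset (Function.support_mul_subset_right _ _)
  have h4 : ∑ᶠ q : ℤ × ℤ × ℤ, (if 0 < q.1 ∧ ev q x m < 0 then k q - k (-q) else 0) =
      ∑ᶠ q, (gp k x m q - gm k x m q) := by
    apply finsum_congr
    intro q
    unfold gp gm
    split_ifs <;> ring
  rw [h3, h2, h4, finsum_sub_distrib (gp_fin H x m) (gm_fin H x m)]
  ring

theorem C3_not {q : ℤ × ℤ × ℤ} (h : C3 q) : ¬ C3 (-q) := by
  rintro ⟨_, _, h2⟩
  have h3 := h.2.2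
  rw [Prod.snd_neg, Prod.fst_neg] at h2
  omega

theorem C3_negq {q : ℤ × ℤ × ℤ} : C3 (-q) ↔ q.2.1 ^ 2 - 4 * q.1 * q.2.2 = 4 ∧ (3 : ℤ) ∣ q.1 ∧
    q.2.1 % 6 = 4 := by
  unfold C3
  simp only [Prod.fst_neg, Prod.snd_neg]
  constructor
  · rintro ⟨h1, h2, h3⟩
    exact ⟨by linear_combination h1, (dvd_neg).1 h2, by omega⟩
  · rintro ⟨h1, h2, h3⟩
    exact ⟨by linear_combination h1, (dvd_neg).2 h2, by omega⟩

theorem kq_negq (q : ℤ × ℤ × ℤ) : kq (-q) = kq q := by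
  unfold kq
  simp only [Prod.fst_neg, Prod.snd_neg, dvd_neg]

open Classical in
theorem A_eq (q : ℤ × ℤ × ℤ) : kA q - kA (-q) = if FmA q then cA q else 0 := by
  have hFm : FmA q ↔ (C3 q ∧ ¬ (7 : ℤ) ∣ q.1) ∨ (C3 (-q) ∧ ¬ (7 : ℤ) ∣ (-q).1) := by
    rw [C3_negq]
    unfold FmA C3
    rw [Prod.fst_neg, dvd_neg]
    tauto
  have hc : cA q = (if q.2.1 % 6 = 2 then 1 else -1) * kq q := rfl
  by_cases h1 : C3 q ∧ ¬ (7 : ℤ) ∣ q.1
  · have h2 : ¬ (C3 (-q) ∧ ¬ (7 : ℤ) ∣ (-q).1) := fun h => C3_not h1.1 h.1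
    unfold kA
    rw [if_pos h1, if_neg h2, if_pos (hFm.2 (Or.inl h1)), hc, if_pos h1.1.2.2]
    ring
  · by_cases h2 : C3 (-q) ∧ ¬ (7 : ℤ) ∣ (-q).1
    · unfold kA
      have h3 : ¬ q.2.1 % 6 = 2 := by
        have := (C3_negq.1 h2.1).2.2
        omega
      rw [if_neg h1, if_pos h2, if_pos (hFm.2 (Or.inr h2)), hc, if_neg h3, kq_negq]
      ring
    · unfold kA
      rw [if_neg h1, if_neg h2, if_neg (fun h => (hFm.1 h).elim h1 h2)]
      ring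

open Classical in
theorem P_eq (q : ℤ × ℤ × ℤ) : kP q - kP (-q) = if Fm q then cQ q else 0 := by
  have hP : (C3 q ∧ (7 : ℤ) ∣ q.1 ∧ (7 : ℤ) ∣ q.2.1 + 2) ↔
      (q.2.1 ^ 2 - 4 * q.1 * q.2.2 = 4 ∧ (21 : ℤ) ∣ q.1 ∧ q.2.1 % 42 = 26) := by
    unfold C3
    constructor
    · rintro ⟨⟨h1, h2, h3⟩, h4, h5⟩
      exact ⟨h1, by omega, by omega⟩
    · rintro ⟨h1, h2, h3⟩
      exact ⟨⟨h1, by omega, by omega⟩, by omega, by omega⟩
  have hM : (C3 (-q) ∧ (7 : ℤ) ∣ (-q).1 ∧ (7 : ℤ) ∣ (-q).2.1 + 2) ↔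
      (q.2.1 ^ 2 - 4 * q.1 * q.2.2 = 4 ∧ (21 : ℤ) ∣ q.1 ∧ q.2.1 % 42 = 16) := by
    rw [C3_negq]
    simp only [Prod.fst_neg, Prod.snd_neg]
    constructor
    · rintro ⟨⟨h1, h2, h3⟩, h4, h5⟩
      exact ⟨h1, by omega, by omega⟩
    · rintro ⟨h1, h2, h3⟩
      exact ⟨⟨h1, by omega, by omega⟩, by omega, by omega⟩
  have hc : cQ q = (if q.2.1 % 42 = 26 then 1 else -1) * kq q := rfl
  unfold kP
  by_cases h1 : q.2.1 ^ 2 - 4 * q.1 * q.2.2 = 4 ∧ (21 : ℤ) ∣ q.1 ∧ q.2.1 % 42 = 26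
  · have h2 : ¬ (q.2.1 ^ 2 - 4 * q.1 * q.2.2 = 4 ∧ (21 : ℤ) ∣ q.1 ∧ q.2.1 % 42 = 16) :=
      fun h => by have := h.2.2; have := h1.2.2; omega
    rw [if_pos (hP.2 h1), if_neg (fun h => h2 (hM.1 h)), if_pos ⟨h1.1, h1.2.1, Or.inl h1.2.2⟩, hc,
      if_pos h1.2.2]
    ring
  · by_cases h2 : q.2.1 ^ 2 - 4 * q.1 * q.2.2 = 4 ∧ (21 : ℤ) ∣ q.1 ∧ q.2.1 % 42 = 16
    · rw [if_neg (fun h => h1 (hP.1 h)), if_pos (hM.2 h2), if_pos ⟨h2.1, h2.2.1, Or.inr h2.2.2⟩, hc,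
        if_neg (by have := h2.2.2; omega), kq_negq]
      ring
    · rw [if_neg (fun h => h1 (hP.1 h)), if_neg (fun h => h2 (hM.1 h)), if_neg]
      · ring
      · rintro ⟨h3, h4, h5 | h5⟩
        · exact h1 ⟨h3, h4, h5⟩
        · exact h2 ⟨h3, h4, h5⟩

theorem XA_eq (x m : ℤ) : X kA x m = 2 * FA x m := by
  classical
  rw [X_eq wtA]
  congr 1
  unfold FA
  apply finsum_congr
  intro q
  have he : ev q x m = q.1 * x ^ 2 + q.2.1 * x * m + q.2.2 * m ^ 2 := rfl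
  rw [← he, A_eq]
  by_cases h1 : 0 < q.1 ∧ ev q x m < 0
  · by_cases h2 : FmA q
    · rw [if_pos h1, if_pos h2, if_pos ⟨h2, h1⟩]
    · rw [if_pos h1, if_neg h2, if_neg (fun h => h2 h.1)]
  · rw [if_neg h1, if_neg (fun h => h1 h.2)]

theorem XP_eq (x m : ℤ) : X kP x m = 2 * Fp x m := by
  classical
  rw [X_eq wtP]
  congr 1
  unfold Fp
  apply finsum_congr
  intro q
  have he : ev q x m = q.1 * x ^ 2 + q.2.1 * x * m + q.2.2 * m ^ 2 := rfl
  rw [← he, P_eq]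
  by_cases h1 : 0 < q.1 ∧ ev q x m < 0
  · by_cases h2 : Fm q
    · rw [if_pos h1, if_pos h2, if_pos ⟨h2, h1⟩]
    · rw [if_pos h1, if_neg h2, if_neg (fun h => h2 h.1)]
  · rw [if_neg h1, if_neg (fun h => h1 h.2)]

/-! ### the special values -/

theorem bound' {A B C : ℤ} (hd : B ^ 2 - 4 * A * C = 4) (hA : 0 < A)
    (hv : A * 3 ^ 2 + B * 3 * 8 + C * 8 ^ 2 < 0) :
    A ≤ 64 ∧ -16 < 6 * A + 8 * B ∧ 6 * A + 8 * B < 16 := by
  have h4 : A * ev (A, B, C) 3 8 < 0 := mul_neg_of_pos_of_neg hA hv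
  obtain ⟨h5, h6⟩ := bound (q := (A, B, C)) hd h4
  simp only at h5 h6
  rw [abs_of_pos hA] at h5
  rw [abs_lt] at h6
  norm_num at h5 h6
  refine ⟨by linarith, by linarith [h6.1], by linarith [h6.2]⟩

theorem FA38 : FA 3 8 = -1 := by
  classical
  unfold FA
  have hs : Function.support (fun q : ℤ × ℤ × ℤ => if FmA q ∧ 0 < q.1 ∧
      q.1 * 3 ^ 2 + q.2.1 * 3 * 8 + q.2.2 * 8 ^ 2 < 0 then cA q else 0) ⊆
      ((({(3, -4, 1), (3, -2, 0), (12, -10, 2), (30, -22, 4), (39, -28, 5)} :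
        Finset (ℤ × ℤ × ℤ)) : Finset (ℤ × ℤ × ℤ)) : Set (ℤ × ℤ × ℤ)) := by
    rintro ⟨A, B, C⟩ hq
    rw [Function.mem_support] at hq
    by_cases h : FmA (A, B, C) ∧ 0 < A ∧ A * 3 ^ 2 + B * 3 * 8 + C * 8 ^ 2 < 0
    · obtain ⟨⟨h1, ⟨A1, h2⟩, h3, h4⟩, h5, h6⟩ := h
      simp only at h1 h2 h3 h4
      obtain ⟨h7, h8, h9⟩ := bound' h1 h5 h6
      obtain ⟨B1, rfl⟩ : ∃ B1, B = 2 * B1 := ⟨B / 2, by omega⟩
      subst h2
      obtain ⟨t, rfl⟩ : ∃ t, B1 = t - A1 := ⟨B1 + A1, by ring⟩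
      have ht : -3 ≤ t ∧ t ≤ 0 := by omega
      have hA1 : 1 ≤ A1 ∧ A1 ≤ 21 := by omega
      obtain ⟨ht1, ht2⟩ := ht
      obtain ⟨hA1, hA2⟩ := hA1
      simp only [Finset.coe_insert, Finset.coe_singleton, Set.mem_insert_iff,
        Set.mem_singleton_iff, Prod.mk.injEq]
      interval_cases A1 <;> interval_cases t <;> omega
    · exact absurd (if_neg h) hq
  rw [finsum_eq_sum_of_support_subset _ hs]
  rw [Finset.sum_insert (by decide), Finset.sum_insert (by decide), Finset.sum_insert (by decide),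
    Finset.sum_insert (by decide), Finset.sum_singleton]
  have v : ∀ (A B C c : ℤ), FmA (A, B, C) → 0 < A → A * 3 ^ 2 + B * 3 * 8 + C * 8 ^ 2 < 0 →
      cA (A, B, C) = c → (if FmA (A, B, C) ∧ 0 < (A, B, C).1 ∧
        (A, B, C).1 * 3 ^ 2 + (A, B, C).2.1 * 3 * 8 + (A, B, C).2.2 * 8 ^ 2 < 0 then
          cA (A, B, C) else 0) = c := by
    intro A B C c h1 h2 h3 h4
    rw [if_pos ⟨h1, h2, h3⟩, h4]
  rw [v 3 (-4) 1 1 ⟨by norm_num, by norm_num, by norm_num, by norm_num⟩ (by norm_num) (by norm_num)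
      rfl,
    v 3 (-2) 0 (-1) ⟨by norm_num, by norm_num, by norm_num, by norm_num⟩ (by norm_num)
      (by norm_num) rfl,
    v 12 (-10) 2 (-1) ⟨by norm_num, by norm_num, by norm_num, by norm_num⟩ (by norm_num)
      (by norm_num) rfl,
    v 30 (-22) 4 (-1) ⟨by norm_num, by norm_num, by norm_num, by norm_num⟩ (by norm_num)
      (by norm_num) rfl,
    v 39 (-28) 5 1 ⟨by norm_num, by norm_num, by norm_num, by norm_num⟩ (by norm_num)
      (by norm_num) rfl]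
  norm_num

theorem Fp38 : Fp 3 8 = 1 := by
  classical
  unfold Fp
  have hs : Function.support (fun q : ℤ × ℤ × ℤ => if Fm q ∧ 0 < q.1 ∧
      q.1 * 3 ^ 2 + q.2.1 * 3 * 8 + q.2.2 * 8 ^ 2 < 0 then cQ q else 0) ⊆
      ((({(21, -16, 3)} : Finset (ℤ × ℤ × ℤ)) : Finset (ℤ × ℤ × ℤ)) : Set (ℤ × ℤ × ℤ)) := by
    rintro ⟨A, B, C⟩ hq
    rw [Function.mem_support] at hq
    by_cases h : Fm (A, B, C) ∧ 0 < A ∧ A * 3 ^ 2 + B * 3 * 8 + C * 8 ^ 2 < 0
    · obtain ⟨⟨h1, ⟨A1, h2⟩, h4⟩, h5, h6⟩ := h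
      simp only at h1 h2 h4
      obtain ⟨h7, h8, h9⟩ := bound' h1 h5 h6
      obtain ⟨B1, rfl⟩ : ∃ B1, B = 2 * B1 := ⟨B / 2, by omega⟩
      subst h2
      have hA1 : 1 ≤ A1 ∧ A1 ≤ 3 := by omega
      obtain ⟨hA1, hA2⟩ := hA1
      have hB1 : -25 ≤ B1 ∧ B1 ≤ 0 := by omega
      obtain ⟨hB1, hB2⟩ := hB1
      simp only [Finset.coe_singleton, Set.mem_singleton_iff, Prod.mk.injEq]
      interval_cases A1 <;> interval_cases B1 <;> omega
    · exact absurd (if_neg h) hq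
  rw [finsum_eq_sum_of_support_subset _ hs, Finset.sum_singleton]
  rw [if_pos ⟨⟨by norm_num, by norm_num, by norm_num⟩, by norm_num, by norm_num⟩]
  rfl

theorem XA8 : X kA 8 21 = -4 := by
  rw [XA_8, XA_eq, FA38]
  norm_num

theorem XP8 : X kP 8 21 = 2 := by
  rw [XP_8, XP_eq, Fp38]
  norm_num

end

end Pool.Agent.N975.S21
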